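import Pool.Agent.Helper879.V.CGSemi

set_option autoImplicit false

namespace Pool.Agent.Helper879.V.CG

open Set Topology
open Pool.Agent.Helper879.V.CT (Ctm ctm_union log_unique circle_exp_eq_one const_of_int cutwire bump ctm_component clopen_nhd_component ctm_iInter_directed sub_of_split exists_open_closure_disjoint)

section

variable {M : Type*} [TopologicalSpace M] [CompactSpace M] [T2Space M]

theorem exists_pair (hM : Good M) {Φ : Set (M × M)} (hΦ : IsCompact Φ) {P : Set M}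
    (hP : Ctm P) (hPΦ : P ⊆ Prod.fst '' Φ)
    (h1 : ∀ z ∈ Φ, ¬ Prod.fst '' (connectedComponentIn Φ z) ⊆ P)
    (h2 : ∀ z ∈ Φ, ¬ P ⊆ Prod.fst '' (connectedComponentIn Φ z)) :
    ∃ a ∈ Φ, ∃ b ∈ Φ, P ⊆ Prod.fst '' (connectedComponentIn Φ a) ∪
      Prod.fst '' (connectedComponentIn Φ b) := by
  by_contra hcon
  push Not at hcon
  set Q : M × M → Set M := fun z => Prod.fst '' (connectedComponentIn Φ z) with hQdef
  have hQ : ∀ z ∈ Φ, Ctm (Q z) := fun z hz =>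
    (ctm_component hΦ hz).image continuous_fst.continuousOn
  have hnest : ∀ a ∈ Φ, ∀ b ∈ Φ, (Q a ∩ P ∩ (Q b ∩ P)).Nonempty →
      Q a ∩ P ⊆ Q b ∩ P ∨ Q b ∩ P ⊆ Q a ∩ P := fun a ha b hb h =>
    nested hM hP (hQ a ha) (hQ b hb) (h1 a ha) (h1 b hb) (hcon a ha b hb) h
  have hself : ∀ z ∈ Φ, z.1 ∈ Q z := fun z hz => ⟨z, mem_connectedComponentIn hz, rfl⟩
  -- maximal elements
  have hmax : ∀ y ∈ P, ∃ z ∈ Φ, z.1 = y ∧ ∀ z' ∈ Φ, z'.1 = y → Q z' ∩ P ⊆ Q z ∩ P := by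
    intro y hy
    obtain ⟨z0, hz0, hz0y⟩ := hPΦ hy
    let ι := {q : M // ∃ z' ∈ Φ, z'.1 = y ∧ q ∈ Q z' ∩ P}
    have hι : Nonempty ι := ⟨⟨y, z0, hz0, hz0y, by rw [← hz0y]; exact hself z0 hz0, hy⟩⟩
    set T : ι → Set (M × M) := fun q => {z | z ∈ Φ ∧ z.1 = y ∧ (q : M) ∈ Q z} with hT
    have hTc : ∀ q, IsClosed (T q) := by
      intro q
      rw [← isOpen_compl_iff, isOpen_iff_mem_nhds]
      intro z hz
      by_cases hzΦ : z ∈ Φ ∩ Prod.fst ⁻¹' {y}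
      · have hqz : (q : M) ∉ Q z := fun h => hz ⟨hzΦ.1, hzΦ.2, h⟩
        have hdis : connectedComponentIn Φ z ∩ Prod.fst ⁻¹' {(q : M)} = ∅ := by
          rw [eq_empty_iff_forall_notMem]
          rintro w ⟨hw, hw'⟩
          exact hqz ⟨w, hw, hw'⟩
        obtain ⟨P', Q', g1, g2, g3, g4, g5, g6⟩ := clopen_nhd_component hΦ hzΦ.1
          (isClosed_singleton.preimage continuous_fst) hdis
        have hQ' : Q'ᶜ ∈ 𝓝 z := by
          apply g2.isClosed.isOpen_compl.mem_nhds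
          intro hzQ
          exact disjoint_left.1 g4 (g5 (mem_connectedComponentIn hzΦ.1)) hzQ
        filter_upwards [hQ'] with z' hz' hzT
        have hz'P : z' ∈ P' := by
          have : z' ∈ P' ∪ Q' := by rw [g3]; exact hzT.1
          exact this.resolve_right hz'
        have hsub : connectedComponentIn Φ z' ⊆ P' :=
          sub_of_split g1.isClosed g2.isClosed g4 isPreconnected_connectedComponentIn
            (by rw [g3]; exact connectedComponentIn_subset Φ z')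
            ⟨z', mem_connectedComponentIn hzT.1, hz'P⟩
        obtain ⟨w, hw, hwq⟩ := hzT.2.2
        exact disjoint_left.1 g4 (hsub hw) (g6 ⟨connectedComponentIn_subset Φ z' hw, hwq⟩)
      · have hcl : IsClosed (Φ ∩ Prod.fst ⁻¹' {y}) :=
          hΦ.isClosed.inter (isClosed_singleton.preimage continuous_fst)
        filter_upwards [hcl.isOpen_compl.mem_nhds hzΦ] with z' hz' hzT
        exact hz' ⟨hzT.1, hzT.2.1⟩
    have hTn : ∀ q, (T q).Nonempty := by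
      rintro ⟨q, z', hz', hz'y, hq⟩
      exact ⟨z', hz', hz'y, hq.1⟩
    have hTd : Directed (· ⊇ ·) T := by
      intro q q'
      by_cases hqq : T q ⊆ T q'
      · exact ⟨q, Subset.rfl, hqq⟩
      · by_cases hqq' : T q' ⊆ T q
        · exact ⟨q', hqq', Subset.rfl⟩
        · exfalso
          rw [not_subset] at hqq hqq'
          obtain ⟨z, hz, hzn⟩ := hqq
          obtain ⟨z', hz', hzn'⟩ := hqq'
          have hyz : y ∈ Q z := by
            have := hself z hz.1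
            rwa [hz.2.1] at this
          have hyz' : y ∈ Q z' := by
            have := hself z' hz'.1
            rwa [hz'.2.1] at this
          rcases hnest z hz.1 z' hz'.1 ⟨y, ⟨hyz, hy⟩, hyz', hy⟩ with h | h
          · apply hzn'
            obtain ⟨qv, z'', hz'', hz''y, hq⟩ := q
            exact ⟨hz'.1, hz'.2.1, (h ⟨hz.2.2, hq.2⟩).1⟩
          · apply hzn
            obtain ⟨qv, z'', hz'', hz''y, hq⟩ := q'
            exact ⟨hz.1, hz.2.1, (h ⟨hz'.2.2, hq.2⟩).1⟩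
    obtain ⟨z, hz⟩ := IsCompact.nonempty_iInter_of_directed_nonempty_isCompact_isClosed T hTd hTn
      (fun q => (hTc q).isCompact) hTc
    rw [mem_iInter] at hz
    obtain ⟨q0⟩ := hι
    refine ⟨z, (hz q0).1, (hz q0).2.1, ?_⟩
    intro z' hz' hz'y q hq
    exact ⟨(hz ⟨q, z', hz', hz'y, hq⟩).2.2, hq.2⟩
  have hnonP : ∀ y ∈ P, ∃ z, z ∈ Φ ∧ z.1 = y ∧ ∀ z' ∈ Φ, z'.1 = y → Q z' ∩ P ⊆ Q z ∩ P := by
    intro y hy
    obtain ⟨z, hz, h⟩ := hmax y hy
    exact ⟨z, hz, h⟩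
  choose! F hF using hnonP
  have hFy : ∀ y ∈ P, y ∈ Q (F y) := by
    intro y hy
    have := hself (F y) (hF y hy).1
    rwa [(hF y hy).2.1] at this
  have sub1 : ∀ y ∈ P, ∀ y' ∈ P, Q (F y) ∩ P ⊆ Q (F y') ∩ P → Q (F y') ∩ P ⊆ Q (F y) ∩ P := by
    intro y hy y' hy' h
    obtain ⟨w, hw, hwy⟩ := (h ⟨hFy y hy, hy⟩).1
    have hwΦ : w ∈ Φ := connectedComponentIn_subset Φ _ hw
    have e : Q w = Q (F y') := by
      simp only [hQdef]
      rw [connectedComponentIn_eq hw]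
    rw [← e]
    exact (hF y hy).2.2 w hwΦ hwy
  have sub2 : ∀ y ∈ P, ∀ y' ∈ P, (Q (F y) ∩ P ∩ (Q (F y') ∩ P)).Nonempty → y' ∈ Q (F y) := by
    intro y hy y' hy' h
    rcases hnest (F y) (hF y hy).1 (F y') (hF y' hy').1 h with h | h
    · exact (sub1 y hy y' hy' h ⟨hFy y' hy', hy'⟩).1
    · exact (h ⟨hFy y' hy', hy'⟩).1
  obtain ⟨y1, hy1⟩ := hP.2.nonempty
  obtain ⟨y2, hy2, hy2n⟩ := not_subset.1 (h2 (F y1) (hF y1 hy1).1)
  obtain ⟨y3, hy3, hy3n⟩ := not_subset.1 (hcon (F y1) (hF y1 hy1).1 (F y2) (hF y2 hy2).1)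
  have d12 : Q (F y1) ∩ P ∩ (Q (F y2) ∩ P) = ∅ := by
    by_contra h
    exact hy2n (sub2 y1 hy1 y2 hy2 (nonempty_iff_ne_empty.2 h))
  have d13 : Q (F y1) ∩ P ∩ (Q (F y3) ∩ P) = ∅ := by
    by_contra h
    exact hy3n (Or.inl (sub2 y1 hy1 y3 hy3 (nonempty_iff_ne_empty.2 h)))
  have d23 : Q (F y2) ∩ P ∩ (Q (F y3) ∩ P) = ∅ := by
    by_contra h
    exact hy3n (Or.inr (sub2 y2 hy2 y3 hy3 (nonempty_iff_ne_empty.2 h)))
  exact no_three hM hP (hQ _ (hF y1 hy1).1) (hQ _ (hF y2 hy2).1) (hQ _ (hF y3 hy3).1)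
    (h1 _ (hF y1 hy1).1) (h1 _ (hF y2 hy2).1) (h1 _ (hF y3 hy3).1)
    ⟨y1, hFy y1 hy1, hy1⟩ ⟨y2, hFy y2 hy2, hy2⟩ ⟨y3, hFy y3 hy3, hy3⟩ d12 d13 d23

end

end Pool.Agent.Helper879.V.CG
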