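import Pool.Agent.Helper879.V.CGSemispan

set_option autoImplicit false
set_option linter.unusedSectionVars false

namespace Pool.Agent.Helper879.V.CG

open Set Topology
open Pool.Agent.Helper879.V.CT (Ctm ctm_union log_unique circle_exp_eq_one const_of_int cutwire bump ctm_component clopen_nhd_component ctm_iInter_directed sub_of_split exists_open_closure_disjoint)

section

variable {M E : Type*} [TopologicalSpace M] [TopologicalSpace E]

/-- the context of the decomposition argument -/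
structure Ctx (f g : E → M) (H K : Set M) (Z : Set E) : Prop where
  good : Good M
  cf : Continuous f
  cg : Continuous g
  hH : Ctm H
  hK : Ctm K
  hI : Ctm (H ∩ K)
  hL : ∃ l ∈ H, l ∉ K
  hR : ∃ r ∈ K, r ∉ H
  hZ : Ctm Z
  fZ : f '' Z = H ∪ K
  gZ : g '' Z = H ∪ K
  min : ∀ C ⊆ Z, Ctm C → (f '' C ⊆ g '' C ∨ g '' C ⊆ f '' C) → C = Z

/-- negative sign -/
def Neg (f g : E → M) (H K : Set M) (C : Set E) : Prop :=
  (H ∩ K ⊆ f '' C ∧ ∃ b ∈ g '' C, b ∉ K ∧ b ∉ f '' C) ∨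
  (H ∩ K ⊆ g '' C ∧ ∃ a ∈ f '' C, a ∉ H ∧ a ∉ g '' C)

/-- big enough -/
def Big (f g : E → M) (H K : Set M) (C : Set E) : Prop := H ∩ K ⊆ f '' C ∨ H ∩ K ⊆ g '' C

variable {f g : E → M} {H K : Set M} {Z : Set E}

theorem Ctx.swapHK (c : Ctx f g H K Z) : Ctx f g K H Z where
  good := c.good
  cf := c.cf
  cg := c.cg
  hH := c.hK
  hK := c.hH
  hI := by rw [inter_comm]; exact c.hI
  hL := c.hR
  hR := c.hL
  hZ := c.hZ
  fZ := by rw [union_comm]; exact c.fZ
  gZ := by rw [union_comm]; exact c.gZ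
  min := c.min

theorem Ctx.swapfg (c : Ctx f g H K Z) : Ctx g f H K Z where
  good := c.good
  cf := c.cg
  cg := c.cf
  hH := c.hH
  hK := c.hK
  hI := c.hI
  hL := c.hL
  hR := c.hR
  hZ := c.hZ
  fZ := c.gZ
  gZ := c.fZ
  min := fun C hC hCc h => c.min C hC hCc h.symm

theorem neg_swap {C : Set E} (h : Neg f g H K C) : Neg g f K H C := by
  rcases h with ⟨h1, b, hb, hb1, hb2⟩ | ⟨h1, a, ha, ha1, ha2⟩
  · right; exact ⟨by rw [inter_comm]; exact h1, b, hb, hb1, hb2⟩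
  · left; exact ⟨by rw [inter_comm]; exact h1, a, ha, ha1, ha2⟩

theorem Neg.big {C : Set E} (h : Neg f g H K C) : Big f g H K C := by
  rcases h with ⟨h1, -⟩ | ⟨h1, -⟩
  · exact Or.inl h1
  · exact Or.inr h1

theorem Big.swapHK {C : Set E} (h : Big f g H K C) : Big f g K H C := by
  unfold Big; rw [inter_comm K H]; exact h

theorem Big.swapfg {C : Set E} (h : Big f g H K C) : Big g f H K C := Or.symm h

theorem Big.mono {C D : Set E} (h : Big f g H K C) (hCD : C ⊆ D) : Big f g H K D := by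
  rcases h with h | h
  · exact Or.inl (h.trans (image_mono hCD))
  · exact Or.inr (h.trans (image_mono hCD))

variable [CompactSpace M] [T2Space M]

theorem Ctx.interH (c : Ctx f g H K Z) {A : Set M} (hA : Ctm A) (hI : H ∩ K ⊆ A) :
    Ctm (A ∩ H) := by
  apply ctm_inter c.good hA c.hH
  obtain ⟨i, hi⟩ := c.hI.2.nonempty
  exact ⟨i, hI hi, hi.1⟩

theorem Ctx.nest (c : Ctx f g H K Z) {A B : Set M} (hA : Ctm A) (hB : Ctm B)
    (hIA : H ∩ K ⊆ A) (hAH : A ⊆ H) (hIB : H ∩ K ⊆ B) (hBH : B ⊆ H) : A ⊆ B ∨ B ⊆ A := by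
  obtain ⟨i, hi⟩ := c.hI.2.nonempty
  rcases c.good.atri hA hB c.hK ⟨i, ⟨hIA hi, hIB hi⟩, hi.2⟩ with h | h | h
  · left
    intro x hx
    rcases h hx with h' | h'
    · exact h'
    · exact hIB ⟨hAH hx, h'⟩
  · right
    intro x hx
    rcases h hx with h' | h'
    · exact h'
    · exact hIA ⟨hBH hx, h'⟩
  · exfalso
    obtain ⟨r, hr, hr'⟩ := c.hR
    rcases h hr with h' | h'
    · exact hr' (hAH h')
    · exact hr' (hBH h')

theorem Ctx.nest' (c : Ctx f g H K Z) {A B : Set M} (hA : Ctm A) (hB : Ctm B)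
    (hIA : H ∩ K ⊆ A) (hIB : H ∩ K ⊆ B) : A ∩ H ⊆ B ∨ B ∩ H ⊆ A := by
  rcases c.nest (c.interH hA hIA) (c.interH hB hIB) (subset_inter hIA inter_subset_left)
    inter_subset_right (subset_inter hIB inter_subset_left) inter_subset_right with h | h
  · exact Or.inl (h.trans inter_subset_left)
  · exact Or.inr (h.trans inter_subset_left)

theorem Ctx.inter_sub (c : Ctx f g H K Z) {A : Set M} (hA : Ctm A) (hAN : A ⊆ H ∪ K)
    (hl : ∃ x ∈ A, x ∉ K) (hr : ∃ x ∈ A, x ∉ H) : H ∩ K ⊆ A := by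
  obtain ⟨l, hl, hlK⟩ := hl
  obtain ⟨r, hr, hrH⟩ := hr
  have hlH : l ∈ H := (hAN hl).resolve_right hlK
  have hrK : r ∈ K := (hAN hr).resolve_left hrH
  have h1 : Ctm (A ∩ H) := ctm_inter c.good hA c.hH ⟨l, hl, hlH⟩
  have h2 : Ctm (A ∩ K) := ctm_inter c.good hA c.hK ⟨r, hr, hrK⟩
  have hpc := hA.2.isPreconnected
  rw [isPreconnected_closed_iff] at hpc
  obtain ⟨x, hxA, hxH, hxK⟩ := hpc H K c.hH.1.isClosed c.hK.1.isClosed hAN ⟨l, hl, hlH⟩
    ⟨r, hr, hrK⟩
  rcases c.good.atri h1 h2 c.hI ⟨x, ⟨⟨hxA, hxH⟩, hxA, hxK⟩, hxH, hxK⟩ with h | h | h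
  · exfalso
    rcases h ⟨hl, hlH⟩ with h' | h'
    · exact hlK h'.2
    · exact hlK h'.2
  · exfalso
    rcases h ⟨hr, hrK⟩ with h' | h'
    · exact hrH h'.2
    · exact hrH h'.1
  · intro y hy
    rcases h hy with h' | h'
    · exact h'.1
    · exact h'.1

theorem Ctx.imf (c : Ctx f g H K Z) {C : Set E} (hC : Ctm C) : Ctm (f '' C) :=
  hC.image c.cf.continuousOn

theorem Ctx.imfN (c : Ctx f g H K Z) {C : Set E} (hC : C ⊆ Z) : f '' C ⊆ H ∪ K := by
  rw [← c.fZ]; exact image_mono hC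

theorem Ctx.not_both (c : Ctx f g H K Z) {C : Set E} (hC : Ctm C) (hCZ : C ⊆ Z) (hne : C ≠ Z)
    (h1 : Neg f g H K C) (h2 : Neg f g K H C) : False := by
  have hA : Ctm (f '' C) := c.imf hC
  have hB : Ctm (g '' C) := c.swapfg.imf hC
  have hAN : f '' C ⊆ H ∪ K := c.imfN hCZ
  have hBN : g '' C ⊆ H ∪ K := c.swapfg.imfN hCZ
  rcases h1 with ⟨h1, b, hb, hb1, hb2⟩ | ⟨h1, a, ha, ha1, ha2⟩
  · rcases h2 with ⟨h2, b', hb', hb1', hb2'⟩ | ⟨h2, a', ha', ha1', ha2'⟩
    · have hIB : H ∩ K ⊆ g '' C := c.inter_sub hB hBN ⟨b, hb, hb1⟩ ⟨b', hb', hb1'⟩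
      have hbH : b ∈ H := (hBN hb).resolve_right hb1
      have hb'K : b' ∈ K := (hBN hb').resolve_left hb1'
      have e1 : f '' C ∩ H ⊆ g '' C := by
        rcases c.nest' hA hB h1 hIB with h | h
        · exact h
        · exact absurd (h ⟨hb, hbH⟩) hb2
      have e2 : f '' C ∩ K ⊆ g '' C := by
        rcases c.swapHK.nest' hA hB h2 (by rw [inter_comm]; exact hIB) with h | h
        · exact h
        · exact absurd (h ⟨hb', hb'K⟩) hb2'
      apply hne
      apply c.min C hCZ hC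
      left
      intro x hx
      rcases hAN hx with h | h
      · exact e1 ⟨hx, h⟩
      · exact e2 ⟨hx, h⟩
    · have hbH : b ∈ H := (hBN hb).resolve_right hb1
      have haH : a' ∈ H := (hAN ha').resolve_right ha1'
      rw [inter_comm] at h2
      rcases c.nest' hA hB h1 h2 with h | h
      · exact ha2' (h ⟨ha', haH⟩)
      · exact hb2 (h ⟨hb, hbH⟩)
  · rcases h2 with ⟨h2, b', hb', hb1', hb2'⟩ | ⟨h2, a', ha', ha1', ha2'⟩
    · have hbK : b' ∈ K := (hBN hb').resolve_left hb1'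
      have haK : a ∈ K := (hAN ha).resolve_left ha1
      rw [inter_comm] at h1
      rcases c.swapHK.nest' hA hB h2 h1 with h | h
      · exact ha2 (h ⟨ha, haK⟩)
      · exact hb2' (h ⟨hb', hbK⟩)
    · have hIA : H ∩ K ⊆ f '' C := c.inter_sub hA hAN ⟨a', ha', ha1'⟩ ⟨a, ha, ha1⟩
      have haK : a ∈ K := (hAN ha).resolve_left ha1
      have ha'H : a' ∈ H := (hAN ha').resolve_right ha1'
      have e1 : g '' C ∩ H ⊆ f '' C := by
        rcases c.nest' hB hA h1 hIA with h | h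
        · exact h
        · exact absurd (h ⟨ha', ha'H⟩) ha2'
      have e2 : g '' C ∩ K ⊆ f '' C := by
        rcases c.swapHK.nest' hB hA h2 (by rw [inter_comm]; exact hIA) with h | h
        · exact h
        · exact absurd (h ⟨ha, haK⟩) ha2
      apply hne
      apply c.min C hCZ hC
      right
      intro x hx
      rcases hBN hx with h | h
      · exact e1 ⟨hx, h⟩
      · exact e2 ⟨hx, h⟩

theorem Ctx.sign (c : Ctx f g H K Z) {C : Set E} (hC : Ctm C) (hCZ : C ⊆ Z) (hne : C ≠ Z)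
    (hb : Big f g H K C) : Neg f g H K C ∨ Neg f g K H C := by
  have hAN : f '' C ⊆ H ∪ K := c.imfN hCZ
  have hBN : g '' C ⊆ H ∪ K := c.swapfg.imfN hCZ
  rcases hb with hb | hb
  · have : ¬ g '' C ⊆ f '' C := fun h => hne (c.min C hCZ hC (Or.inr h))
    obtain ⟨b, hbg, hbf⟩ := not_subset.1 this
    by_cases hbK : b ∈ K
    · by_cases hbH : b ∈ H
      · exact absurd (hb ⟨hbH, hbK⟩) hbf
      · right; left
        exact ⟨by rw [inter_comm]; exact hb, b, hbg, hbH, hbf⟩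
    · left; left
      exact ⟨hb, b, hbg, hbK, hbf⟩
  · have : ¬ f '' C ⊆ g '' C := fun h => hne (c.min C hCZ hC (Or.inl h))
    obtain ⟨a, haf, hag⟩ := not_subset.1 this
    by_cases haK : a ∈ K
    · by_cases haH : a ∈ H
      · exact absurd (hb ⟨haH, haK⟩) hag
      · left; right
        exact ⟨hb, a, haf, haH, hag⟩
    · right; right
      exact ⟨by rw [inter_comm]; exact hb, a, haf, haK, hag⟩

end

section Grow

variable {M E : Type*} [TopologicalSpace M] [TopologicalSpace E] [CompactSpace M] [T2Space M]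
  [CompactSpace E] [T2Space E] {f g : E → M} {H K : Set M} {Z : Set E}

/-- growth, first type -/
theorem Ctx.growA (c : Ctx f g H K Z) {C C' : Set E} (hC : Ctm C) (hC' : Ctm C') (hCC : C ⊆ C')
    (hCZ : C' ⊆ Z) (hne : C' ≠ Z) (hI : H ∩ K ⊆ f '' C) (hb : ∃ b ∈ g '' C, b ∉ K ∧ b ∉ f '' C) :
    ∃ b ∈ g '' C', b ∉ K ∧ b ∉ f '' C' := by
  by_contra hcon
  push Not at hcon
  set S : Set (Set E) := {D | Ctm D ∧ C ⊆ D ∧ D ⊆ C' ∧ ∃ b ∈ g '' D, b ∉ K ∧ b ∉ f '' D} with hS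
  have hproper : ∀ D ⊆ C', D ≠ Z := by
    intro D hD hDZ
    exact hne (Subset.antisymm hCZ (hDZ ▸ hD))
  obtain ⟨z0, hz0⟩ := hC.2.nonempty
  obtain ⟨D0, hCD0, hmax⟩ := zorn_subset_nonempty S (by
    intro ch hch hchain hne'
    have hub : Ctm (closure (⋃₀ ch)) := by
      refine ⟨isClosed_closure.isCompact, ?_, ?_⟩
      · obtain ⟨D, hD⟩ := hne'
        exact ⟨z0, subset_closure ⟨D, hD, (hch hD).2.1 hz0⟩⟩
      · apply IsPreconnected.closure
        exact isPreconnected_sUnion z0 ch (fun D hD => (hch hD).2.1 hz0)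
          (fun D hD => (hch hD).1.2.isPreconnected)
    have hsub : closure (⋃₀ ch) ⊆ C' :=
      closure_minimal (sUnion_subset fun D hD => (hch hD).2.2.1) hC'.1.isClosed
    have hCsub : C ⊆ closure (⋃₀ ch) := by
      obtain ⟨D, hD⟩ := hne'
      exact (hch hD).2.1.trans ((subset_sUnion_of_mem hD).trans subset_closure)
    refine ⟨closure (⋃₀ ch), ⟨hub, hCsub, hsub, ?_⟩, fun D hD =>
      (subset_sUnion_of_mem hD).trans subset_closure⟩
    by_contra hn
    push Not at hn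
    have hIu : H ∩ K ⊆ f '' closure (⋃₀ ch) := hI.trans (image_mono hCsub)
    rcases c.sign hub (hsub.trans hCZ) (hproper _ hsub) (Or.inl hIu) with h | h
    · rcases h with ⟨-, b, hb, hb1, hb2⟩ | ⟨h1, a, ha, ha1, ha2⟩
      · exact hb2 (hn b hb hb1)
      · -- derive that type-one sign must be for K H
        have hBN : g '' closure (⋃₀ ch) ⊆ H ∪ K := c.swapfg.imfN (hsub.trans hCZ)
        have hnot : ¬ g '' closure (⋃₀ ch) ⊆ f '' closure (⋃₀ ch) := fun h =>
          hproper _ hsub (c.min _ (hsub.trans hCZ) hub (Or.inr h))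
        obtain ⟨b, hbg, hbf⟩ := not_subset.1 hnot
        by_cases hbK : b ∈ K
        · by_cases hbH : b ∈ H
          · exact hbf (hIu ⟨hbH, hbK⟩)
          · exact c.not_both hub (hsub.trans hCZ) (hproper _ hsub)
              (Or.inr ⟨h1, a, ha, ha1, ha2⟩)
              (Or.inl ⟨by rw [inter_comm]; exact hIu, b, hbg, hbH, hbf⟩)
        · exact hbf (hn b hbg hbK)
    · -- positive: openness
      have hBN : g '' closure (⋃₀ ch) ⊆ H ∪ K := c.swapfg.imfN (hsub.trans hCZ)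
      have hnot : ¬ g '' closure (⋃₀ ch) ⊆ f '' closure (⋃₀ ch) := fun h =>
        hproper _ hsub (c.min _ (hsub.trans hCZ) hub (Or.inr h))
      obtain ⟨b, hbg, hbf⟩ := not_subset.1 hnot
      by_cases hbK : b ∈ K
      · by_cases hbH : b ∈ H
        · exact hbf (hIu ⟨hbH, hbK⟩)
        · obtain ⟨O, hO, hbO, hOd⟩ := exists_open_closure_disjoint
            ((c.imf hub).1.isClosed.union c.hH.1.isClosed) (x := b)
            (by rintro (h | h); exacts [hbf h, hbH h])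
          obtain ⟨w, hw, hwb⟩ := hbg
          have hw' : w ∈ closure (⋃₀ ch) := hw
          rw [mem_closure_iff] at hw'
          obtain ⟨w', hw'O, D, hD, hw'D⟩ := hw' (g ⁻¹' O) (hO.preimage c.cg) (by
            rw [mem_preimage, hwb]; exact hbO)
          have hDsub : D ⊆ closure (⋃₀ ch) := (subset_sUnion_of_mem hD).trans subset_closure
          have hID : H ∩ K ⊆ f '' D := hI.trans (image_mono (hch hD).2.1)
          have hgO : g w' ∉ f '' closure (⋃₀ ch) ∪ H := fun h =>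
            disjoint_left.1 hOd (subset_closure hw'O) h
          have hDC' : D ⊆ C' := (hch hD).2.2.1
          obtain ⟨b1, hb1, hb1K, hb1f⟩ := (hch hD).2.2.2
          exact c.not_both (hch hD).1 (hDC'.trans hCZ) (hproper _ hDC')
            (Or.inl ⟨hID, b1, hb1, hb1K, hb1f⟩)
            (Or.inl ⟨by rw [inter_comm]; exact hID, g w', ⟨w', hw'D, rfl⟩,
              fun h => hgO (Or.inr h), fun h => hgO (Or.inl (image_mono hDsub h))⟩)
      · exact hbf (hn b hbg hbK)) C ⟨hC, Subset.rfl, hCC, hb⟩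
  obtain ⟨hD0, hCD, hDC', b, hbg, hbK, hbf⟩ := hmax.prop
  have hbC' : b ∈ f '' C' := hcon b (image_mono hDC' hbg) hbK
  obtain ⟨O, hO, hbO, hOd⟩ := exists_open_closure_disjoint (c.imf hD0).1.isClosed hbf
  have hOo : IsOpen (f ⁻¹' O) := hO.preimage c.cf
  have hz0D : z0 ∈ D0 := hCD hz0
  have hD0O : ∀ w ∈ D0, w ∉ f ⁻¹' O := fun w hw hwO =>
    disjoint_left.1 hOd (subset_closure hwO) ⟨w, hw, rfl⟩
  obtain ⟨w0, hw0, hw0b⟩ := hbC'
  obtain ⟨w, hw, hwO⟩ := bump hC' hOo ⟨w0, hw0, by rw [mem_preimage, hw0b]; exact hbO⟩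
    (hDC' hz0D) (hD0O z0 hz0D)
  set D1 : Set E := connectedComponentIn (C' \ f ⁻¹' O) z0 with hD1
  have hD01 : D0 ⊆ D1 := hD0.2.isPreconnected.subset_connectedComponentIn hz0D
    (fun w hw => ⟨hDC' hw, hD0O w hw⟩)
  have hD1c : Ctm D1 := ctm_component (hC'.1.diff hOo) ⟨hDC' hz0D, hD0O z0 hz0D⟩
  have hD1s := connectedComponentIn_subset (C' \ f ⁻¹' O) z0
  have hD1S : D1 ∈ S := by
    refine ⟨hD1c, hCD.trans hD01, hD1s.trans sdiff_subset, b, image_mono hD01 hbg, hbK, ?_⟩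
    rintro ⟨v, hv, hvb⟩
    exact (hD1s hv).2 (by rw [mem_preimage, hvb]; exact hbO)
  have hD10 : D1 ⊆ D0 := hmax.2 hD1S hD01
  have hcl : closure (f ⁻¹' O) ⊆ f ⁻¹' (closure O) :=
    closure_minimal (preimage_mono subset_closure) (isClosed_closure.preimage c.cf)
  exact disjoint_left.1 hOd (hcl hwO) ⟨w, hD10 hw, rfl⟩

/-- growth -/
theorem Ctx.grow (c : Ctx f g H K Z) {C C' : Set E} (hC : Ctm C) (hC' : Ctm C') (hCC : C ⊆ C')
    (hCZ : C' ⊆ Z) (hne : C' ≠ Z) (h : Neg f g H K C) : Neg f g H K C' := by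
  rcases h with ⟨h1, h2⟩ | ⟨h1, h2⟩
  · left
    exact ⟨h1.trans (image_mono hCC), c.growA hC hC' hCC hCZ hne h1 h2⟩
  · right
    refine ⟨h1.trans (image_mono hCC), ?_⟩
    exact c.swapfg.swapHK.growA hC hC' hCC hCZ hne (by rw [inter_comm]; exact h1) h2

theorem Ctx.shrink (c : Ctx f g H K Z) {C C' : Set E} (hC : Ctm C) (hC' : Ctm C') (hCC : C ⊆ C')
    (hCZ : C' ⊆ Z) (hne : C' ≠ Z) (hb : Big f g H K C) (h : Neg f g H K C') : Neg f g H K C := by
  have hneC : C ≠ Z := by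
    intro hCe
    exact hne (Subset.antisymm hCZ (hCe ▸ hCC))
  rcases c.sign hC (hCC.trans hCZ) hneC hb with h' | h'
  · exact h'
  · exact (c.not_both hC' hCZ hne h (c.swapHK.grow hC hC' hCC hCZ hne h')).elim

end Grow

end Pool.Agent.Helper879.V.CG
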