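import Pool.Agent.Helper879.V.CGSign
import Pool.Agent.Helper879.V.CGUlim

set_option autoImplicit false
set_option linter.unusedSectionVars false

namespace Pool.Agent.Helper879.V.CG

open Set Topology Filter
open Pool.Agent.Helper879.V.CT (Ctm ctm_union log_unique circle_exp_eq_one const_of_int cutwire bump ctm_component clopen_nhd_component ctm_iInter_directed sub_of_split exists_open_closure_disjoint)

theorem mem_image_iInter {X Y : Type*} [TopologicalSpace X] [T2Space X] [TopologicalSpace Y]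
    [T1Space Y] {ι : Type*} [Nonempty ι] {V : ι → Set X} (hd : Directed (· ⊇ ·) V)
    (hV : ∀ i, IsCompact (V i)) {f : X → Y} (hf : Continuous f) {y : Y}
    (h : ∀ i, y ∈ f '' V i) : y ∈ f '' ⋂ i, V i := by
  have hne : (⋂ i, (V i ∩ f ⁻¹' {y})).Nonempty := by
    apply IsCompact.nonempty_iInter_of_directed_nonempty_isCompact_isClosed
    · intro i j
      obtain ⟨k, hki, hkj⟩ := hd i j
      exact ⟨k, inter_subset_inter_left _ hki, inter_subset_inter_left _ hkj⟩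
    · intro i
      obtain ⟨q, hq, hq'⟩ := h i
      exact ⟨q, hq, hq'⟩
    · intro i
      exact (hV i).inter_right (isClosed_singleton.preimage hf)
    · intro i
      exact (hV i).isClosed.inter (isClosed_singleton.preimage hf)
  obtain ⟨q, hq⟩ := hne
  rw [mem_iInter] at hq
  refine ⟨q, mem_iInter.2 fun i => (hq i).1, ?_⟩
  obtain ⟨i⟩ : Nonempty ι := inferInstance
  exact (hq i).2

section

variable {M E : Type*} [TopologicalSpace M] [TopologicalSpace E] [CompactSpace M] [T2Space M]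
  [CompactSpace E] [T2Space E] {f g : E → M} {H K : Set M} {Z : Set E}

/-- components of the part over H are big -/
theorem Ctx.comp_big (c : Ctx f g H K Z) {z : E} (hz : z ∈ Z) (hzH : g z ∈ H) (hzK : g z ∉ K) :
    H ∩ K ⊆ g '' connectedComponentIn (Z ∩ g ⁻¹' H) z := by
  by_contra hcon
  obtain ⟨i, hi, hin⟩ := not_subset.1 hcon
  have hΦ : IsCompact (Z ∩ g ⁻¹' H) := c.hZ.1.inter_right (c.hH.1.isClosed.preimage c.cg)
  have hzΦ : z ∈ Z ∩ g ⁻¹' H := ⟨hz, hzH⟩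
  have hdis : connectedComponentIn (Z ∩ g ⁻¹' H) z ∩ g ⁻¹' {i} = ∅ := by
    rw [eq_empty_iff_forall_notMem]
    rintro w ⟨hw, hw'⟩
    exact hin ⟨w, hw, hw'⟩
  obtain ⟨P, Q, h1, h2, h3, h4, h5, h6⟩ := clopen_nhd_component hΦ hzΦ
    (isClosed_singleton.preimage c.cg) hdis
  obtain ⟨U, V, hU, hV, hPU, hQV, hUV⟩ := SeparatedNhds.of_isCompact_isCompact h1 h2 h4
  have hzP : z ∈ P := h5 (mem_connectedComponentIn hzΦ)
  have hzV : z ∉ V := fun h => disjoint_left.1 hUV (hPU hzP) h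
  have hiN : i ∈ g '' Z := by rw [c.gZ]; exact Or.inl hi.1
  obtain ⟨q, hq, hqi⟩ := hiN
  have hqQ : q ∈ Q := h6 ⟨⟨hq, by rw [mem_preimage, hqi]; exact hi.1⟩, hqi⟩
  obtain ⟨w, hw, hwV⟩ := bump c.hZ hV ⟨q, hq, hQV hqQ⟩ hz hzV
  have hcs := connectedComponentIn_subset (Z \ V) z
  have hwP : w ∉ P := by
    intro h
    have hd : Disjoint U (closure V) := hUV.closure_right hU
    exact disjoint_left.1 hd (hPU h) hwV
  have hwQ : w ∉ Q := fun h => (hcs hw).2 (hQV h)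
  have hwH : g w ∉ H := by
    intro h
    have : w ∈ P ∪ Q := by rw [h3]; exact ⟨(hcs hw).1, h⟩
    rcases this with h | h
    · exact hwP h
    · exact hwQ h
  have hC1 : Ctm (connectedComponentIn (Z \ V) z) := ctm_component (c.hZ.1.diff hV) ⟨hz, hzV⟩
  have hI := c.inter_sub (c.swapfg.imf hC1) (c.swapfg.imfN (hcs.trans sdiff_subset))
    ⟨g z, ⟨z, mem_connectedComponentIn ⟨hz, hzV⟩, rfl⟩, hzK⟩ ⟨g w, ⟨w, hw, rfl⟩, hwH⟩
  obtain ⟨v, hv, hvi⟩ := hI hi
  have hvQ : v ∈ Q := h6 ⟨⟨(hcs hv).1, by rw [mem_preimage, hvi]; exact hi.1⟩, hvi⟩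
  exact (hcs hv).2 (hQV hvQ)

/-- reaching outside -/
theorem Ctx.reach (c : Ctx f g H K Z) {D : Set E} (hD : Ctm D) (_hDZ : D ⊆ Z) {z : E} (hz : z ∈ D)
    (hzH : f z ∈ H) {r : M} (hr : r ∈ f '' D) (hrH : r ∉ H) :
    ∃ D' ⊆ D, Ctm D' ∧ z ∈ D' ∧ r ∉ f '' D' ∧ ∃ x ∈ f '' D', x ∉ H := by
  obtain ⟨O, hO, hrO, hOd⟩ := exists_open_closure_disjoint c.hH.1.isClosed hrH
  have hOo : IsOpen (f ⁻¹' O) := hO.preimage c.cf
  have hzO : z ∉ f ⁻¹' O := fun h => disjoint_left.1 hOd (subset_closure h) hzH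
  obtain ⟨w0, hw0, hw0r⟩ := hr
  obtain ⟨w, hw, hwO⟩ := bump hD hOo ⟨w0, hw0, by rw [mem_preimage, hw0r]; exact hrO⟩ hz hzO
  have hcl : closure (f ⁻¹' O) ⊆ f ⁻¹' (closure O) :=
    closure_minimal (preimage_mono subset_closure) (isClosed_closure.preimage c.cf)
  have hcs := connectedComponentIn_subset (D \ f ⁻¹' O) z
  refine ⟨connectedComponentIn (D \ f ⁻¹' O) z, hcs.trans sdiff_subset,
    ctm_component (hD.1.diff hOo) ⟨hz, hzO⟩, mem_connectedComponentIn ⟨hz, hzO⟩, ?_, f w,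
    ⟨w, hw, rfl⟩, fun h => disjoint_left.1 hOd (hcl hwO) h⟩
  rintro ⟨v, hv, hvr⟩
  exact (hcs hv).2 (by rw [mem_preimage, hvr]; exact hrO)

/-- minimality forces one side -/
theorem Ctx.side (c : Ctx f g H K Z) {D : Set E} (hD : Ctm D) (hDZ : D ⊆ Z) {z : E} (hz : z ∈ D)
    (hmin : ∀ D' ⊆ D, Ctm D' → z ∈ D' → H ∩ K ⊆ f '' D' → D' = D) :
    f '' D ⊆ H ∨ f '' D ⊆ K := by
  by_contra hcon
  push Not at hcon
  obtain ⟨r, hr, hrH⟩ := not_subset.1 hcon.1
  obtain ⟨l, hl, hlK⟩ := not_subset.1 hcon.2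
  have hN : f '' D ⊆ H ∪ K := c.imfN hDZ
  have hfz : f z ∈ H ∪ K := hN ⟨z, hz, rfl⟩
  have key : ∀ D' ⊆ D, Ctm D' → z ∈ D' → (∃ x ∈ f '' D', x ∉ K) → (∃ x ∈ f '' D', x ∉ H) →
      D' = D := by
    intro D' hD' hD'c hzD' h1 h2
    exact hmin D' hD' hD'c hzD' (c.inter_sub (c.imf hD'c) (c.imfN (hD'.trans hDZ)) h1 h2)
  by_cases hzH : f z ∈ H
  · obtain ⟨D1, hD1, hD1c, hzD1, hrD1, hx1⟩ := c.reach hD hDZ hz hzH hr hrH
    by_cases hzK : f z ∈ K
    · obtain ⟨D2, hD2, hD2c, hzD2, hlD2, hx2⟩ := c.swapHK.reach hD hDZ hz hzK hl hlK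
      by_cases hD1K : f '' D1 ⊆ K
      · have hu : Ctm (D1 ∪ D2) := ctm_union hD1c hD2c ⟨z, hzD1, hzD2⟩
        obtain ⟨x1, hx1, hx1'⟩ := hx1
        obtain ⟨x2, hx2, hx2'⟩ := hx2
        have := key (D1 ∪ D2) (union_subset hD1 hD2) hu (Or.inl hzD1)
          ⟨x2, image_mono subset_union_right hx2, hx2'⟩
          ⟨x1, image_mono subset_union_left hx1, hx1'⟩
        rw [← this, image_union] at hl
        rcases hl with h | h
        · exact hlK (hD1K h)
        · exact hlD2 h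
      · have := key D1 hD1 hD1c hzD1 (not_subset.1 hD1K) hx1
        rw [this] at hrD1
        exact hrD1 hr
    · have := key D1 hD1 hD1c hzD1 ⟨f z, ⟨z, hzD1, rfl⟩, hzK⟩ hx1
      rw [this] at hrD1
      exact hrD1 hr
  · have hzK : f z ∈ K := hfz.resolve_left hzH
    obtain ⟨D2, hD2, hD2c, hzD2, hlD2, hx2⟩ := c.swapHK.reach hD hDZ hz hzK hl hlK
    have := key D2 hD2 hD2c hzD2 hx2 ⟨f z, ⟨z, hzD2, rfl⟩, hzH⟩
    rw [this] at hlD2
    exact hlD2 hl

/-- quadrant continua -/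
structure Quad (f g : E → M) (H K : Set M) (Z D : Set E) : Prop where
  ctm : Ctm D
  sub : D ⊆ Z
  big : Big f g H K D
  sf : f '' D ⊆ H ∨ f '' D ⊆ K
  sg : g '' D ⊆ H ∨ g '' D ⊆ K

theorem Quad.ne {D : Set E} (q : Quad f g H K Z D) (c : Ctx f g H K Z) : D ≠ Z := by
  intro h
  have hf := c.fZ
  rw [← h] at hf
  obtain ⟨l, hl, hl'⟩ := c.hL
  obtain ⟨r, hr, hr'⟩ := c.hR
  rcases q.sf with h1 | h1
  · exact hr' (h1 (by rw [hf]; exact Or.inr hr))
  · exact hl' (h1 (by rw [hf]; exact Or.inl hl))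

theorem Ctx.quad (c : Ctx f g H K Z) {C : Set E} (hC : Ctm C) (hCZ : C ⊆ Z) {z : E} (hz : z ∈ C)
    (hb : Big f g H K C) : ∃ D ⊆ C, z ∈ D ∧ Quad f g H K Z D := by
  obtain ⟨D, hDC, hmin⟩ := zorn_superset_nonempty {D : Set E | Ctm D ∧ z ∈ D ∧ Big f g H K D} (by
    intro ch hch hchain hne
    have : Nonempty ch := hne.to_subtype
    have hdir : Directed (· ⊇ ·) (fun i : ch => (i : Set E)) := by
      intro i j
      rcases hchain.total i.2 j.2 with h | h
      · exact ⟨i, Subset.rfl, h⟩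
      · exact ⟨j, h, Subset.rfl⟩
    refine ⟨⋂ i : ch, (i : Set E), ⟨ctm_iInter_directed hdir (fun i => (hch i.2).1), ?_, ?_⟩, ?_⟩
    · exact mem_iInter.2 fun i => (hch i.2).2.1
    · by_cases hall : ∀ i : ch, H ∩ K ⊆ f '' (i : Set E)
      · left
        intro x hx
        exact mem_image_iInter hdir (fun i => (hch i.2).1.1) c.cf (fun i => hall i hx)
      · right
        push Not at hall
        obtain ⟨i0, hi0⟩ := hall
        have h0 : H ∩ K ⊆ g '' (i0 : Set E) := (hch i0.2).2.2.resolve_left hi0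
        intro x hx
        apply mem_image_iInter hdir (fun i => (hch i.2).1.1) c.cg
        intro i
        rcases hchain.total i.2 i0.2 with h | h
        · have : ¬ H ∩ K ⊆ f '' (i : Set E) := fun h' => hi0 (h'.trans (image_mono h))
          exact (hch i.2).2.2.resolve_left this hx
        · exact image_mono h (h0 hx)
    · intro s hs
      exact iInter_subset (fun i : ch => (i : Set E)) ⟨s, hs⟩) C ⟨hC, hz, hb⟩
  obtain ⟨hDc, hzD, hDb⟩ := hmin.prop
  have hDZ : D ⊆ Z := hDC.trans hCZ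
  refine ⟨D, hDC, hzD, hDc, hDZ, hDb, ?_, ?_⟩
  · apply c.side hDc hDZ hzD
    intro D' hD' hD'c hzD' hI
    exact Subset.antisymm hD' (hmin.2 ⟨hD'c, hzD', Or.inl hI⟩ hD')
  · apply c.swapfg.side hDc hDZ hzD
    intro D' hD' hD'c hzD' hI
    exact Subset.antisymm hD' (hmin.2 ⟨hD'c, hzD', Or.inr hI⟩ hD')

/-- a point is not in both signs -/
theorem Ctx.unique (c : Ctx f g H K Z) {z : E} {D1 D2 : Set E} (q1 : Quad f g H K Z D1)
    (q2 : Quad f g H K Z D2) (hz1 : z ∈ D1) (hz2 : z ∈ D2) (h1 : Neg f g K H D1)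
    (h2 : Neg f g H K D2) : False := by
  have hu : Ctm (D1 ∪ D2) := ctm_union q1.ctm q2.ctm ⟨z, hz1, hz2⟩
  have huZ : D1 ∪ D2 ⊆ Z := union_subset q1.sub q2.sub
  by_cases hne : D1 ∪ D2 = Z
  · have hf : f '' D1 ∪ f '' D2 = H ∪ K := by rw [← image_union, hne, c.fZ]
    have hg : g '' D1 ∪ g '' D2 = H ∪ K := by rw [← image_union, hne, c.gZ]
    obtain ⟨l, hl, hlK⟩ := c.hL
    obtain ⟨r, hr, hrH⟩ := c.hR
    have hlf : l ∈ f '' D1 ∪ f '' D2 := by rw [hf]; exact Or.inl hl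
    have hrf : r ∈ f '' D1 ∪ f '' D2 := by rw [hf]; exact Or.inr hr
    -- f D1 ⊆ H, since positive
    -- determine sides
    have hD1 : f '' D1 ⊆ H ∧ g '' D1 ⊆ K := by
      rcases h1 with ⟨hI, b, hb, hbH, hbf⟩ | ⟨hI, a, ha, haK, hag⟩
      · have hgK : g '' D1 ⊆ K := by
          rcases q1.sg with h | h
          · exact absurd (h hb) hbH
          · exact h
        refine ⟨?_, hgK⟩
        rcases q1.sf with h | h
        · exact h
        · exfalso
          -- both in K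
          have hlf2 : l ∈ f '' D2 := hlf.resolve_left (fun h' => hlK (h h'))
          have hf2 : f '' D2 ⊆ H := by
            rcases q2.sf with h' | h'
            · exact h'
            · exact absurd (h' hlf2) hlK
          have hK1 : K ⊆ f '' D1 := by
            intro x hx
            by_cases hxH : x ∈ H
            · exact hI ⟨hx, hxH⟩
            · have : x ∈ f '' D1 ∪ f '' D2 := by rw [hf]; exact Or.inr hx
              exact this.resolve_right (fun h' => hxH (hf2 h'))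
          exact q1.ne c (c.min D1 q1.sub q1.ctm (Or.inr (hgK.trans hK1)))
      · have hfH : f '' D1 ⊆ H := by
          rcases q1.sf with h | h
          · exact h
          · exact absurd (h ha) haK
        refine ⟨hfH, ?_⟩
        rcases q1.sg with h | h
        · exfalso
          have hrg : r ∈ g '' D1 ∪ g '' D2 := by rw [hg]; exact Or.inr hr
          have hrg2 : r ∈ g '' D2 := hrg.resolve_left (fun h' => hrH (h h'))
          have hg2 : g '' D2 ⊆ K := by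
            rcases q2.sg with h' | h'
            · exact absurd (h' hrg2) hrH
            · exact h'
          have hH1 : H ⊆ g '' D1 := by
            intro x hx
            by_cases hxK : x ∈ K
            · exact hI ⟨hxK, hx⟩
            · have : x ∈ g '' D1 ∪ g '' D2 := by rw [hg]; exact Or.inl hx
              exact this.resolve_right (fun h' => hxK (hg2 h'))
          exact q1.ne c (c.min D1 q1.sub q1.ctm (Or.inl (hfH.trans hH1)))
        · exact h
    have hrf2 : r ∈ f '' D2 := hrf.resolve_left (fun h => hrH (hD1.1 h))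
    have hf2 : f '' D2 ⊆ K := by
      rcases q2.sf with h | h
      · exact absurd (h hrf2) hrH
      · exact h
    have hlf1 : l ∈ f '' D1 := hlf.resolve_right (fun h => hlK (hf2 h))
    have hfz1 : f z ∈ H := hD1.1 ⟨z, hz1, rfl⟩
    have hfz2 : f z ∈ K := hf2 ⟨z, hz2, rfl⟩
    obtain ⟨C1, hC1, hC1c, hzC1, hlC1, hx1⟩ := c.swapHK.reach q1.ctm q1.sub hz1 hfz2 hlf1 hlK
    obtain ⟨C2, hC2, hC2c, hzC2, hrC2, hx2⟩ := c.reach q2.ctm q2.sub hz2 hfz1 hrf2 hrH
    have hCu : Ctm (C1 ∪ C2) := ctm_union hC1c hC2c ⟨z, hzC1, hzC2⟩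
    have hCuZ : C1 ∪ C2 ⊆ Z := union_subset (hC1.trans q1.sub) (hC2.trans q2.sub)
    obtain ⟨x1, hx1, hx1'⟩ := hx1
    obtain ⟨x2, hx2, hx2'⟩ := hx2
    have hCbig : H ∩ K ⊆ f '' (C1 ∪ C2) := c.inter_sub (c.imf hCu) (c.imfN hCuZ)
      ⟨x1, image_mono subset_union_left hx1, hx1'⟩ ⟨x2, image_mono subset_union_right hx2, hx2'⟩
    -- C1 ∪ D2 proper
    have hu1 : Ctm (C1 ∪ D2) := ctm_union hC1c q2.ctm ⟨z, hzC1, hz2⟩
    have hu1Z : C1 ∪ D2 ⊆ Z := union_subset (hC1.trans q1.sub) q2.sub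
    have hu1ne : C1 ∪ D2 ≠ Z := by
      intro h
      have : l ∈ f '' (C1 ∪ D2) := by rw [h, c.fZ]; exact Or.inl hl
      rw [image_union] at this
      rcases this with h' | h'
      · exact hlC1 h'
      · exact hlK (hf2 h')
    have hu2 : Ctm (D1 ∪ C2) := ctm_union q1.ctm hC2c ⟨z, hz1, hzC2⟩
    have hu2Z : D1 ∪ C2 ⊆ Z := union_subset q1.sub (hC2.trans q2.sub)
    have hu2ne : D1 ∪ C2 ≠ Z := by
      intro h
      have : r ∈ f '' (D1 ∪ C2) := by rw [h, c.fZ]; exact Or.inr hr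
      rw [image_union] at this
      rcases this with h' | h'
      · exact hrH (hD1.1 h')
      · exact hrC2 h'
    have n1 : Neg f g H K (C1 ∪ D2) := c.grow q2.ctm hu1 subset_union_right hu1Z hu1ne h2
    have n2 : Neg f g K H (D1 ∪ C2) := c.swapHK.grow q1.ctm hu2 subset_union_left hu2Z hu2ne h1
    have m1 : Neg f g H K (C1 ∪ C2) := c.shrink hCu hu1 (union_subset_union_right _ hC2) hu1Z
      hu1ne (Or.inl hCbig) n1
    have m2 : Neg f g K H (C1 ∪ C2) := c.swapHK.shrink hCu hu2 (union_subset_union_left _ hC1) hu2Z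
      hu2ne (Or.inl (by rw [inter_comm]; exact hCbig)) n2
    have hCune : C1 ∪ C2 ≠ Z := by
      intro h
      apply hu1ne
      exact Subset.antisymm hu1Z (h ▸ union_subset_union_right _ hC2)
    exact c.not_both hCu hCuZ hCune m1 m2
  · have n1 : Neg f g K H (D1 ∪ D2) := c.swapHK.grow q1.ctm hu subset_union_left huZ hne h1
    have n2 : Neg f g H K (D1 ∪ D2) := c.grow q2.ctm hu subset_union_right huZ hne h2
    exact c.not_both hu huZ hne n2 n1

/-- type one sign is strict -/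
theorem Ctx.negA (c : Ctx f g H K Z) {D : Set E} (hD : Ctm D) (hDZ : D ⊆ Z) (hne : D ≠ Z)
    (hI : H ∩ K ⊆ f '' D) (h : Neg f g H K D) : ∀ b ∈ g '' D, b ∉ H → b ∈ f '' D := by
  intro b hb hbH
  by_contra hbf
  exact c.not_both hD hDZ hne h (Or.inl ⟨by rw [inter_comm]; exact hI, b, hb, hbH, hbf⟩)

/-- the set of negative points -/
def ZNeg (f g : E → M) (H K : Set M) (Z : Set E) : Set E :=
  {z | ∃ D, z ∈ D ∧ Quad f g H K Z D ∧ Neg f g H K D}

theorem Ctx.closed_aux (c : Ctx f g H K Z) {z : E} {u : Ultrafilter E} (hu : (u : Filter E) ≤ 𝓝 z)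
    {D : E → Set E} (hDc : ∀ w, Ctm (D w))
    (hD : ∀ᶠ w in (u : Filter E), w ∈ D w ∧ Quad f g H K Z (D w) ∧ Neg f g H K (D w))
    (hI : ∀ᶠ w in (u : Filter E), H ∩ K ⊆ f '' D w) : z ∈ ZNeg f g H K Z := by
  have hL : Ctm (ulim u D) := ctm_ulim hDc
  have hzL : z ∈ ulim u D := mem_ulim (w := id) (hD.mono fun w hw => hw.1) hu
  have hLZ : ulim u D ⊆ Z := ulim_subset c.hZ.1.isClosed (hD.mono fun w hw => hw.2.1.sub)
  have hIL : H ∩ K ⊆ f '' ulim u D := fun x hx => ulim_image c.cf (hI.mono fun w hw => hw hx)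
  have hsf : f '' ulim u D ⊆ H ∨ f '' ulim u D ⊆ K := by
    have : ∀ᶠ w in (u : Filter E), D w ⊆ f ⁻¹' H ∨ D w ⊆ f ⁻¹' K := by
      filter_upwards [hD] with w hw
      rcases hw.2.1.sf with h | h
      · exact Or.inl (image_subset_iff.1 h)
      · exact Or.inr (image_subset_iff.1 h)
    rcases Ultrafilter.eventually_or.1 this with h | h
    · exact Or.inl (image_subset_iff.2 (ulim_subset (c.hH.1.isClosed.preimage c.cf) h))
    · exact Or.inr (image_subset_iff.2 (ulim_subset (c.hK.1.isClosed.preimage c.cf) h))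
  have hsg : g '' ulim u D ⊆ H ∨ g '' ulim u D ⊆ K := by
    have : ∀ᶠ w in (u : Filter E), D w ⊆ g ⁻¹' H ∨ D w ⊆ g ⁻¹' K := by
      filter_upwards [hD] with w hw
      rcases hw.2.1.sg with h | h
      · exact Or.inl (image_subset_iff.1 h)
      · exact Or.inr (image_subset_iff.1 h)
    rcases Ultrafilter.eventually_or.1 this with h | h
    · exact Or.inl (image_subset_iff.2 (ulim_subset (c.hH.1.isClosed.preimage c.cg) h))
    · exact Or.inr (image_subset_iff.2 (ulim_subset (c.hK.1.isClosed.preimage c.cg) h))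
  have hq : Quad f g H K Z (ulim u D) := ⟨hL, hLZ, Or.inl hIL, hsf, hsg⟩
  refine ⟨ulim u D, hzL, hq, ?_⟩
  have hnot : ¬ g '' ulim u D ⊆ f '' ulim u D := fun h => hq.ne c (c.min _ hLZ hL (Or.inr h))
  obtain ⟨b, hbg, hbf⟩ := not_subset.1 hnot
  by_cases hbK : b ∈ K
  · by_cases hbH : b ∈ H
    · exact absurd (hIL ⟨hbH, hbK⟩) hbf
    · exfalso
      obtain ⟨O, hO, hbO, hOd⟩ := exists_open_closure_disjoint
        ((c.imf hL).1.isClosed.union c.hH.1.isClosed) (x := b)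
        (by rintro (h | h); exacts [hbf h, hbH h])
      obtain ⟨w0, hw0, hw0b⟩ := hbg
      have e1 : ∀ᶠ w in (u : Filter E), D w ∩ f ⁻¹' (closure O) = ∅ := by
        apply ulim_disjoint (isClosed_closure.preimage c.cf)
        rw [eq_empty_iff_forall_notMem]
        rintro v ⟨hv, hv'⟩
        exact disjoint_left.1 hOd hv' (Or.inl ⟨v, hv, rfl⟩)
      have e2 : ∀ᶠ w in (u : Filter E), (D w ∩ g ⁻¹' O).Nonempty :=
        hw0 _ ((hO.preimage c.cg).mem_nhds (by rw [mem_preimage, hw0b]; exact hbO))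
      obtain ⟨w, ⟨⟨⟨hw1, hw2, hw3⟩, hwI⟩, hwe1⟩, v, hv, hvO⟩ := (((hD.and hI).and e1).and e2).exists
      have hgvH : g v ∉ H := fun h => disjoint_left.1 hOd (subset_closure hvO) (Or.inr h)
      have hgvf : g v ∉ f '' D w := by
        rintro ⟨v', hv', hv'e⟩
        rw [eq_empty_iff_forall_notMem] at hwe1
        exact hwe1 v' ⟨hv', by rw [mem_preimage, hv'e]; exact subset_closure hvO⟩
      exact hgvf (c.negA hw2.ctm hw2.sub (hw2.ne c) hwI hw3 (g v) ⟨v, hv, rfl⟩ hgvH)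
  · exact Or.inl ⟨hIL, b, hbg, hbK, hbf⟩

theorem Quad.swapfg {D : Set E} (q : Quad f g H K Z D) : Quad g f H K Z D :=
  ⟨q.ctm, q.sub, q.big.swapfg, q.sg, q.sf⟩

theorem Quad.swapHK {D : Set E} (q : Quad f g H K Z D) : Quad f g K H Z D :=
  ⟨q.ctm, q.sub, q.big.swapHK, q.sf.symm, q.sg.symm⟩

theorem Ctx.isClosed_neg (c : Ctx f g H K Z) : IsClosed (ZNeg f g H K Z) := by
  classical
  rw [← closure_subset_iff_isClosed]
  intro z hz
  obtain ⟨u, hu1, hu2⟩ := mem_closure_iff_ultrafilter.1 hz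
  have hch : ∀ w : E, ∃ D : Set E, Ctm D ∧ (w ∈ ZNeg f g H K Z →
      w ∈ D ∧ Quad f g H K Z D ∧ Neg f g H K D) := by
    intro w
    by_cases hw : w ∈ ZNeg f g H K Z
    · obtain ⟨D, h1, h2, h3⟩ := hw
      exact ⟨D, h2.ctm, fun _ => ⟨h1, h2, h3⟩⟩
    · exact ⟨Z, c.hZ, fun h => absurd h hw⟩
  choose D hDc hD using hch
  have hev : ∀ᶠ w in (u : Filter E), w ∈ D w ∧ Quad f g H K Z (D w) ∧ Neg f g H K (D w) := by
    have : ∀ᶠ w in (u : Filter E), w ∈ ZNeg f g H K Z := hu1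
    exact this.mono fun w hw => hD w hw
  have hbig : ∀ᶠ w in (u : Filter E), H ∩ K ⊆ f '' D w ∨ H ∩ K ⊆ g '' D w :=
    hev.mono fun w hw => hw.2.1.big
  rcases Ultrafilter.eventually_or.1 hbig with h | h
  · exact c.closed_aux hu2 hDc hev h
  · have hev' : ∀ᶠ w in (u : Filter E), w ∈ D w ∧ Quad g f K H Z (D w) ∧ Neg g f K H (D w) :=
      hev.mono fun w hw => ⟨hw.1, hw.2.1.swapfg.swapHK, neg_swap hw.2.2⟩
    obtain ⟨D', h1, h2, h3⟩ := c.swapfg.swapHK.closed_aux hu2 hDc hev' (by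
      filter_upwards [h] with w hw
      rw [inter_comm]; exact hw)
    exact ⟨D', h1, h2.swapfg.swapHK, neg_swap h3⟩

/-- some negative continuum exists -/
theorem Ctx.exists_neg (c : Ctx f g H K Z) : (ZNeg f g H K Z).Nonempty := by
  by_contra hemp
  rw [not_nonempty_iff_eq_empty, eq_empty_iff_forall_notMem] at hemp
  have hno : ∀ C ⊆ Z, Ctm C → C ≠ Z → Neg f g H K C → False := by
    intro C hCZ hC hne hneg
    obtain ⟨z, hz⟩ := hC.2.nonempty
    obtain ⟨D, hDC, hzD, hq⟩ := c.quad hC hCZ hz hneg.big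
    exact hemp z ⟨D, hzD, hq, c.shrink hq.ctm hC hDC hCZ hne hq.big hneg⟩
  set Φ : Set E := Z ∩ g ⁻¹' H with hΦdef
  have hΦ : IsCompact Φ := c.hZ.1.inter_right (c.hH.1.isClosed.preimage c.cg)
  obtain ⟨i0, hi0⟩ := c.hI.2.nonempty
  obtain ⟨l0, hl0, hl0K⟩ := c.hL
  obtain ⟨r0, hr0, hr0H⟩ := c.hR
  set Q : E → Set M := fun z => g '' connectedComponentIn Φ z with hQ
  have hQc : ∀ z ∈ Φ, Ctm (Q z) := fun z hz =>
    (ctm_component hΦ hz).image c.cg.continuousOn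
  have hQH : ∀ z, Q z ⊆ H := by
    rintro z _ ⟨w, hw, rfl⟩
    exact (connectedComponentIn_subset Φ z hw).2
  have hQI : ∀ z ∈ Φ, ∀ y ∈ Q z, y ∉ K → H ∩ K ⊆ Q z := by
    intro z hz y hy hyK
    obtain ⟨w, hw, hwy⟩ := hy
    have hwΦ : w ∈ Φ := connectedComponentIn_subset Φ z hw
    have e : Q z = Q w := by simp only [hQ]; rw [connectedComponentIn_eq hw]
    rw [e]
    exact c.comp_big hwΦ.1 hwΦ.2 (by rw [hwy]; exact hyK)
  let ι := {y : M // y ∈ H ∧ y ∉ K}
  have hι : Nonempty ι := ⟨⟨l0, hl0, hl0K⟩⟩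
  set T : ι → Set E := fun y => {z | z ∈ Φ ∧ g z = i0 ∧ (y : M) ∈ Q z} with hT
  have hTc : ∀ y, IsClosed (T y) := by
    intro q
    rw [← isOpen_compl_iff, isOpen_iff_mem_nhds]
    intro z hz
    by_cases hzΦ : z ∈ Φ ∩ g ⁻¹' {i0}
    · have hqz : (q : M) ∉ Q z := fun h => hz ⟨hzΦ.1, hzΦ.2, h⟩
      have hdis : connectedComponentIn Φ z ∩ g ⁻¹' {(q : M)} = ∅ := by
        rw [eq_empty_iff_forall_notMem]
        rintro w ⟨hw, hw'⟩
        exact hqz ⟨w, hw, hw'⟩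
      obtain ⟨P', Q', g1, g2, g3, g4, g5, g6⟩ := clopen_nhd_component hΦ hzΦ.1
        (isClosed_singleton.preimage c.cg) hdis
      have hQ' : Q'ᶜ ∈ 𝓝 z := by
        apply g2.isClosed.isOpen_compl.mem_nhds
        intro hzQ
        exact disjoint_left.1 g4 (g5 (mem_connectedComponentIn hzΦ.1)) hzQ
      filter_upwards [hQ'] with z' hz' hzT
      have hz'P : z' ∈ P' := by
        have : z' ∈ P' ∪ Q' := by rw [g3]; exact hzT.1
        exact this.resolve_right hz'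
      have hsub : connectedComponentIn Φ z' ⊆ P' :=
        sub_of_split g1.isClosed g2.isClosed g4 isPreconnected_connectedComponentIn
          (by rw [g3]; exact connectedComponentIn_subset Φ z')
          ⟨z', mem_connectedComponentIn hzT.1, hz'P⟩
      obtain ⟨w, hw, hwq⟩ := hzT.2.2
      exact disjoint_left.1 g4 (hsub hw) (g6 ⟨connectedComponentIn_subset Φ z' hw, hwq⟩)
    · have hcl : IsClosed (Φ ∩ g ⁻¹' {i0}) :=
        hΦ.isClosed.inter (isClosed_singleton.preimage c.cg)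
      filter_upwards [hcl.isOpen_compl.mem_nhds hzΦ] with z' hz' hzT
      exact hz' ⟨hzT.1, hzT.2.1⟩
  have hTn : ∀ y, (T y).Nonempty := by
    rintro ⟨y, hyH, hyK⟩
    have hy : y ∈ g '' Z := by rw [c.gZ]; exact Or.inl hyH
    obtain ⟨z', hz', hz'y⟩ := hy
    have hz'Φ : z' ∈ Φ := ⟨hz', by rw [mem_preimage, hz'y]; exact hyH⟩
    have hyQ : y ∈ Q z' := ⟨z', mem_connectedComponentIn hz'Φ, hz'y⟩
    obtain ⟨w, hw, hwi⟩ := hQI z' hz'Φ y hyQ hyK hi0
    refine ⟨w, connectedComponentIn_subset Φ z' hw, hwi, ?_⟩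
    have e : Q z' = Q w := by simp only [hQ]; rw [connectedComponentIn_eq hw]
    show y ∈ Q w
    rw [← e]; exact hyQ
  have hTd : Directed (· ⊇ ·) T := by
    intro q q'
    by_cases hqq : T q ⊆ T q'
    · exact ⟨q, Subset.rfl, hqq⟩
    · by_cases hqq' : T q' ⊆ T q
      · exact ⟨q', hqq', Subset.rfl⟩
      · exfalso
        rw [not_subset] at hqq hqq'
        obtain ⟨z, hz, hzn⟩ := hqq
        obtain ⟨z', hz', hzn'⟩ := hqq'
        rcases c.nest (hQc z hz.1) (hQc z' hz'.1) (hQI z hz.1 q hz.2.2 q.2.2) (hQH z)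
          (hQI z' hz'.1 q' hz'.2.2 q'.2.2) (hQH z') with h | h
        · exact hzn' ⟨hz'.1, hz'.2.1, h hz.2.2⟩
        · exact hzn ⟨hz.1, hz.2.1, h hz'.2.2⟩
  obtain ⟨z, hz⟩ := IsCompact.nonempty_iInter_of_directed_nonempty_isCompact_isClosed T hTd hTn
    (fun q => (hTc q).isCompact) hTc
  rw [mem_iInter] at hz
  have hzΦ : z ∈ Φ := (hz ⟨l0, hl0, hl0K⟩).1
  have hIz : H ∩ K ⊆ Q z := hQI z hzΦ l0 (hz ⟨l0, hl0, hl0K⟩).2.2 hl0K
  have hHz : H ⊆ Q z := by
    intro y hy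
    by_cases hyK : y ∈ K
    · exact hIz ⟨hy, hyK⟩
    · exact (hz ⟨y, hy, hyK⟩).2.2
  have hCz : Ctm (connectedComponentIn Φ z) := ctm_component hΦ hzΦ
  have hCZ : connectedComponentIn Φ z ⊆ Z :=
    (connectedComponentIn_subset Φ z).trans inter_subset_left
  have hCne : connectedComponentIn Φ z ≠ Z := by
    intro h
    have : r0 ∈ g '' connectedComponentIn Φ z := by rw [h, c.gZ]; exact Or.inr hr0
    exact hr0H (hQH z this)
  apply hCne
  apply c.min _ hCZ hCz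
  left
  intro a ha
  by_contra hag
  have haH : a ∉ H := fun h => hag (hHz h)
  exact hno _ hCZ hCz hCne (Or.inr ⟨hIz, a, ha, haH, hag⟩)

/-- the decomposition theorem -/
theorem Ctx.false (c : Ctx f g H K Z) : False := by
  obtain ⟨z1, hz1⟩ := c.exists_neg
  obtain ⟨z2, hz2⟩ := c.swapHK.exists_neg
  have hcov : Z ⊆ ZNeg f g H K Z ∪ ZNeg f g K H Z := by
    intro z hz
    obtain ⟨D, hDZ, hzD, hq⟩ := c.quad c.hZ Subset.rfl hz
      (Or.inl (by rw [c.fZ]; exact inter_subset_left.trans subset_union_left))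
    rcases c.sign hq.ctm hq.sub (hq.ne c) hq.big with h | h
    · exact Or.inl ⟨D, hzD, hq, h⟩
    · exact Or.inr ⟨D, hzD, hq.swapHK, h⟩
  have hpc := c.hZ.2.isPreconnected
  rw [isPreconnected_closed_iff] at hpc
  have s1 : z1 ∈ Z := by
    obtain ⟨D, h1, h2, -⟩ := hz1; exact h2.sub h1
  have s2 : z2 ∈ Z := by
    obtain ⟨D, h1, h2, -⟩ := hz2; exact h2.sub h1
  obtain ⟨z, -, ⟨D2, hz2', q2, n2⟩, ⟨D1, hz1', q1, n1⟩⟩ := hpc _ _ c.isClosed_neg
    c.swapHK.isClosed_neg hcov ⟨z1, s1, hz1⟩ ⟨z2, s2, hz2⟩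
  exact c.unique q1.swapHK q2 hz1' hz2' n1 n2

end

end Pool.Agent.Helper879.V.CG
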