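import Pool.Agent.Helper879.V.CTBasic

set_option autoImplicit false

namespace Pool.Agent.Helper879.V.CT

open Set Topology

/-- integer multiples: constancy on preconnected sets -/
theorem const_of_int {α : Type*} [TopologicalSpace α] {S : Set α} (hS : IsPreconnected S)
    {f : α → ℝ} (hf : ContinuousOn f S) {c : ℝ} (hc : 0 < c) (h : ∀ x ∈ S, ∃ n : ℤ, f x = n * c)
    {x y : α} (hx : x ∈ S) (hy : y ∈ S) : f x = f y := by
  have main : ∀ {x y : α}, x ∈ S → y ∈ S → ¬ f x < f y := by
    intro x y hx hy hlt
    obtain ⟨n, hn⟩ := h x hx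
    obtain ⟨m, hm⟩ := h y hy
    have hnm : n + 1 ≤ m := by
      have : (n : ℝ) < m := by
        rw [hn, hm] at hlt
        exact lt_of_mul_lt_mul_right hlt hc.le
      exact_mod_cast this
    have hnm' : (n : ℝ) + 1 ≤ m := by exact_mod_cast hnm
    have hiv := hS.intermediate_value hx hy hf
    have hv : (n : ℝ) * c + c / 2 ∈ Icc (f x) (f y) := by
      rw [hn, hm]
      constructor
      · linarith
      · nlinarith
    obtain ⟨z, hz, hz'⟩ := hiv hv
    obtain ⟨k, hk⟩ := h z hz
    rw [hk] at hz'
    have h2 : (k : ℝ) = n + 1 / 2 := by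
      have : ((k : ℝ) - (n + 1 / 2)) * c = 0 := by linarith
      rcases mul_eq_zero.1 this with h | h
      · linarith
      · exact absurd h hc.ne'
    have h3 : (2 * k : ℝ) = 2 * n + 1 := by rw [h2]; ring
    have h4 : 2 * k = 2 * n + 1 := by exact_mod_cast h3
    omega
  exact le_antisymm (not_lt.1 (main hy hx)) (not_lt.1 (main hx hy))

theorem circle_exp_eq_one {t : ℝ} (h : Circle.exp t = 1) : ∃ n : ℤ, t = n * (2 * Real.pi) := by
  have : (Circle.exp t : ℂ) = 1 := by rw [h]; rfl
  rw [Circle.coe_exp, Complex.exp_eq_one_iff] at this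
  obtain ⟨n, hn⟩ := this
  refine ⟨n, ?_⟩
  have h2 : (t : ℂ) * Complex.I = ((n * (2 * Real.pi) : ℝ) : ℂ) * Complex.I := by
    rw [hn]; push_cast; ring
  have h3 := mul_right_cancel₀ Complex.I_ne_zero h2
  exact_mod_cast h3

theorem circle_exp_int (n : ℤ) : Circle.exp (n * (2 * Real.pi)) = 1 := by
  ext
  rw [Circle.coe_exp]
  simp only [Circle.coe_one]
  rw [Complex.exp_eq_one_iff]
  exact ⟨n, by push_cast; ring⟩

theorem log_unique {α : Type*} [TopologicalSpace α] {S : Set α} (hS : IsPreconnected S)
    {f g : α → ℝ} (hf : ContinuousOn f S) (hg : ContinuousOn g S)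
    (h : ∀ x ∈ S, Circle.exp (f x) = Circle.exp (g x)) {x y : α} (hx : x ∈ S) (hy : y ∈ S) :
    f x - g x = f y - g y := by
  refine const_of_int hS (f := fun x => f x - g x) (hf.sub hg) Real.two_pi_pos ?_ hx hy
  intro x hx
  apply circle_exp_eq_one
  rw [Circle.exp_sub, h x hx]
  simp

/-- real part of a point of the circle -/
theorem continuous_re : Continuous (fun z : Circle => (z : ℂ).re) :=
  Complex.continuous_re.comp continuous_subtype_val

theorem exp_arg (z : Circle) : Circle.exp (Complex.arg z) = z := Circle.exp_arg z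

theorem continuousAt_arg {z : Circle} (h : (0 : ℝ) < (z : ℂ).re) :
    ContinuousAt (fun z : Circle => Complex.arg (z : ℂ)) z := by
  have h1 : ContinuousAt Complex.arg (z : ℂ) := Complex.continuousAt_arg (Or.inl h)
  exact ContinuousAt.comp h1 continuous_subtype_val.continuousAt

/-- the cut-off argument -/
noncomputable def al (z : Circle) : ℝ := max 0 (min 1 (1 + 2 * (z : ℂ).re)) * Complex.arg z

theorem continuous_al : Continuous al := by
  rw [continuous_iff_continuousAt]
  intro z
  by_cases hz : (z : ℂ) ∈ Complex.slitPlane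
  · have h1 : ContinuousAt (fun z : Circle => Complex.arg (z : ℂ)) z :=
      ContinuousAt.comp (Complex.continuousAt_arg hz) continuous_subtype_val.continuousAt
    have h2 : Continuous (fun z : Circle => max 0 (min 1 (1 + 2 * (z : ℂ).re))) := by
      have := continuous_re
      fun_prop
    exact h2.continuousAt.mul h1
  · -- re z ≤ 0 and im z = 0
    rw [Complex.mem_slitPlane_iff, not_or, not_lt, not_not] at hz
    have hn : (z : ℂ).re ^ 2 + (z : ℂ).im ^ 2 = 1 := by
      have := Circle.normSq_coe z
      rw [Complex.normSq_apply] at this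
      nlinarith
    have hre : (z : ℂ).re = -1 := by
      rw [hz.2] at hn
      nlinarith [hz.1]
    have hopen : {w : Circle | (w : ℂ).re < -1/2} ∈ 𝓝 z := by
      apply (isOpen_lt continuous_re continuous_const).mem_nhds
      show (z : ℂ).re < -1/2
      rw [hre]; norm_num
    have : al =ᶠ[𝓝 z] fun _ => 0 := by
      filter_upwards [hopen] with w hw
      have hw' : (w : ℂ).re < -1/2 := hw
      unfold al
      rw [max_eq_left (le_trans (min_le_right _ _) (by linarith)), zero_mul]
    exact (continuousAt_const (y := (0 : ℝ))).congr this.symm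

theorem al_of_re_nonneg {z : Circle} (h : 0 ≤ (z : ℂ).re) : al z = Complex.arg z := by
  unfold al
  rw [min_eq_left (by linarith), max_eq_right zero_le_one, one_mul]

theorem al_one : al 1 = 0 := by
  rw [al_of_re_nonneg (by simp)]; simp

/-- the cut function -/
noncomputable def cut (z : Circle) : Circle := z * Circle.exp (- al z)

theorem continuous_cut : Continuous cut := by
  unfold cut
  exact continuous_id.mul (Circle.exp.continuous.comp continuous_al.neg)

theorem cut_of_re_nonneg {z : Circle} (h : 0 ≤ (z : ℂ).re) : cut z = 1 := by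
  unfold cut
  rw [al_of_re_nonneg h, Circle.exp_neg, exp_arg]
  simp

theorem cut_mul (z : Circle) : cut z * Circle.exp (al z) = z := by
  unfold cut
  rw [mul_assoc, ← Circle.exp_add]
  simp

/-- having a continuous logarithm -/
def HasLog {X : Type*} [TopologicalSpace X] (G : X → Circle) : Prop :=
  ∃ l : X → ℝ, Continuous l ∧ ∀ x, Circle.exp (l x) = G x

theorem HasLog.mul {X : Type*} [TopologicalSpace X] {G H : X → Circle} (hG : HasLog G)
    (hH : HasLog H) : HasLog (fun x => G x * H x) := by
  obtain ⟨l, hl, hl'⟩ := hG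
  obtain ⟨m, hm, hm'⟩ := hH
  exact ⟨fun x => l x + m x, hl.add hm, fun x => by rw [Circle.exp_add, hl', hm']⟩

theorem HasLog.comp {X Y : Type*} [TopologicalSpace X] [TopologicalSpace Y] {G : X → Circle}
    (hG : HasLog G) {f : Y → X} (hf : Continuous f) : HasLog (fun y => G (f y)) := by
  obtain ⟨l, hl, hl'⟩ := hG
  exact ⟨fun y => l (f y), hl.comp hf, fun y => hl' _⟩

theorem hasLog_one {X : Type*} [TopologicalSpace X] : HasLog (fun _ : X => (1 : Circle)) :=
  ⟨fun _ => 0, continuous_const, fun _ => by simp⟩

section Fam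

variable {X T : Type*} [TopologicalSpace X] [TopologicalSpace T] [CompactSpace T]

theorem fam_nhd {H : X × T → Circle} (hH : Continuous H) (x0 : X) :
    ∃ U ∈ 𝓝 x0, ∀ x ∈ U, ∀ t : T, 0 < ((H (x, t) / H (x0, t) : Circle) : ℂ).re := by
  have hc : Continuous (fun p : X × T => ((H (p.1, p.2) / H (x0, p.2) : Circle) : ℂ).re) := by
    apply continuous_re.comp
    exact (hH.comp (continuous_fst.prodMk continuous_snd)).div'
      (hH.comp (continuous_const.prodMk continuous_snd))
  have hopen : IsOpen {p : X × T | 0 < ((H (p.1, p.2) / H (x0, p.2) : Circle) : ℂ).re} :=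
    isOpen_lt continuous_const hc
  obtain ⟨u, v, hu, hv, hxu, htv, huv⟩ := generalized_tube_lemma (isCompact_singleton (x := x0))
    (isCompact_univ (X := T)) hopen (by
      rintro ⟨x, t⟩ ⟨hx, -⟩
      simp only [mem_singleton_iff] at hx
      subst hx
      show 0 < ((H (x, t) / H (x, t) : Circle) : ℂ).re
      simp)
  refine ⟨u, hu.mem_nhds (hxu rfl), ?_⟩
  intro x hx t
  exact huv (mk_mem_prod hx (htv (mem_univ t)))

omit [CompactSpace T] in
theorem ratio_log {A B : T → Circle} (hA : Continuous A) (hB : Continuous B)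
    (h : ∀ t, 0 < ((A t / B t : Circle) : ℂ).re) (hl : HasLog B) : HasLog A := by
  obtain ⟨l, hl, hl'⟩ := hl
  refine ⟨fun t => l t + Complex.arg ((A t / B t : Circle) : ℂ), ?_, ?_⟩
  · apply hl.add
    rw [continuous_iff_continuousAt]
    intro t
    exact ContinuousAt.comp (g := fun z : Circle => Complex.arg (z : ℂ)) (continuousAt_arg (h t))
      (hA.div' hB).continuousAt
  · intro t
    rw [Circle.exp_add, hl', exp_arg]
    simp

theorem fam_clopen {H : X × T → Circle} (hH : Continuous H) :
    IsClopen {x : X | HasLog (fun t => H (x, t))} := by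
  have hs : ∀ x, Continuous (fun t => H (x, t)) := fun x =>
    hH.comp (continuous_const.prodMk continuous_id)
  constructor
  · rw [← isOpen_compl_iff, isOpen_iff_mem_nhds]
    intro x0 hx0
    obtain ⟨U, hU, hU'⟩ := fam_nhd hH x0
    filter_upwards [hU] with x hx
    intro hx'
    apply hx0
    refine ratio_log (hs x0) (hs x) (fun t => ?_) hx'
    have h1 := hU' x hx t
    have h2 : ((H (x0, t) / H (x, t) : Circle) : ℂ).re = ((H (x, t) / H (x0, t) : Circle) : ℂ).re := by
      rw [← inv_div (H (x, t)) (H (x0, t)), Circle.coe_inv_eq_conj, Complex.conj_re]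
    rw [h2]; exact h1
  · rw [isOpen_iff_mem_nhds]
    intro x0 hx0
    obtain ⟨U, hU, hU'⟩ := fam_nhd hH x0
    filter_upwards [hU] with x hx
    exact ratio_log (hs x) (hs x0) (hU' x hx) hx0

theorem fam_all [PreconnectedSpace X] {H : X × T → Circle} (hH : Continuous H) {x0 : X}
    (h0 : HasLog (fun t => H (x0, t))) (x : X) : HasLog (fun t => H (x, t)) := by
  have := (fam_clopen hH).eq_univ ⟨x0, h0⟩
  have hx : x ∈ (univ : Set X) := mem_univ x
  rw [← this] at hx
  exact hx

theorem fam_log [PreconnectedSpace T] {H : X × T → Circle} (hH : Continuous H)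
    (hall : ∀ x, HasLog (fun t => H (x, t))) {t0 : X → T} (ht0 : Continuous t0)
    (h1 : ∀ x, H (x, t0 x) = 1) :
    ∃ L : X × T → ℝ, Continuous L ∧ (∀ p, Circle.exp (L p) = H p) ∧ ∀ x, L (x, t0 x) = 0 := by
  choose l hl hl' using hall
  refine ⟨fun p => l p.1 p.2 - l p.1 (t0 p.1), ?_, ?_, ?_⟩
  · rw [continuous_iff_continuousAt]
    rintro ⟨x0, s⟩
    obtain ⟨U, hU, hU'⟩ := fam_nhd hH x0
    -- the comparison function
    set A : X × T → ℝ := fun p => l x0 p.2 + Complex.arg ((H (p.1, p.2) / H (x0, p.2) : Circle) : ℂ)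
      with hA
    have hAc : ∀ p : X × T, p.1 ∈ U → ContinuousAt A p := by
      intro p hp
      apply ContinuousAt.add ((hl x0).comp continuous_snd).continuousAt
      exact ContinuousAt.comp (g := fun z : Circle => Complex.arg (z : ℂ))
        (f := fun p : X × T => H (p.1, p.2) / H (x0, p.2)) (continuousAt_arg (hU' p.1 hp p.2))
        ((hH.comp (continuous_fst.prodMk continuous_snd)).div'
          (hH.comp (continuous_const.prodMk continuous_snd))).continuousAt
    have hx0U : x0 ∈ U := mem_of_mem_nhds hU
    have hB : ContinuousAt (fun p : X × T => A p - A (p.1, t0 p.1)) (x0, s) := by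
      apply (hAc (x0, s) hx0U).sub
      exact ContinuousAt.comp (g := A) (f := fun p : X × T => (p.1, t0 p.1)) (hAc (x0, t0 x0) hx0U)
        (continuous_fst.prodMk (ht0.comp continuous_fst)).continuousAt
    refine hB.congr ?_
    have hev : ∀ᶠ p : X × T in 𝓝 (x0, s), p.1 ∈ U := continuous_fst.continuousAt.eventually_mem hU
    filter_upwards [hev] with p hp
    -- uniqueness
    have hcA : Continuous (fun t => A (p.1, t)) := by
      rw [continuous_iff_continuousAt]
      intro t
      exact ContinuousAt.comp (g := A) (f := fun t => (p.1, t)) (hAc (p.1, t) hp)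
        (continuous_const.prodMk continuous_id).continuousAt
    have := log_unique (isPreconnected_univ (α := T)) (f := l p.1) (g := fun t => A (p.1, t))
      (hl p.1).continuousOn hcA.continuousOn (by
        intro t _
        rw [hl', hA]
        simp only
        rw [Circle.exp_add, hl', exp_arg]
        simp) (mem_univ p.2) (mem_univ (t0 p.1))
    have e : A p = A (p.1, p.2) := rfl
    show A (p.1, p.2) - A (p.1, t0 p.1) = l p.1 p.2 - l p.1 (t0 p.1)
    linarith
  · intro p
    show Circle.exp (l p.1 p.2 - l p.1 (t0 p.1)) = H (p.1, p.2)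
    rw [Circle.exp_sub, hl', hl']
    show H (p.1, p.2) / H (p.1, t0 p.1) = _
    rw [h1]
    simp
  · intro x
    simp

end Fam

section Interval

variable {a b : ℝ}

theorem hasLog_Icc (hab : a ≤ b) {g : Icc a b → Circle} (hg : Continuous g) : HasLog g := by
  have hne : Fact (a ≤ b) := ⟨hab⟩
  have : PreconnectedSpace (Icc a b) := Subtype.preconnectedSpace isPreconnected_Icc
  set H : Icc a b × Icc a b → Circle := fun p => g (min p.1 p.2) with hHdef
  have hH : Continuous H := hg.comp (continuous_fst.min continuous_snd)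
  have h0 : HasLog (fun t => H (⟨a, left_mem_Icc.2 hab⟩, t)) := by
    refine ⟨fun _ => Complex.arg (g ⟨a, left_mem_Icc.2 hab⟩), continuous_const, fun t => ?_⟩
    rw [exp_arg, hHdef]
    simp only
    congr 1
    symm
    apply min_eq_left
    exact t.2.1
  have h1 := fam_all hH h0 ⟨b, right_mem_Icc.2 hab⟩
  obtain ⟨l, hl, hl'⟩ := h1
  refine ⟨l, hl, fun t => ?_⟩
  rw [hl', hHdef]
  simp only
  congr 1
  apply min_eq_right
  exact t.2.2

end Interval

/-- the piece of G on A -/
noncomputable def piece {X : Type*} (G : X → Circle) (A : Set X) : X → Circle := by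
  classical exact fun p => if p ∈ A then cut (G p) else 1

theorem piece_of_mem {X : Type*} {G : X → Circle} {A : Set X} {p : X} (h : p ∈ A) :
    piece G A p = cut (G p) := by
  simp [piece, h]

theorem piece_of_notMem {X : Type*} {G : X → Circle} {A : Set X} {p : X} (h : p ∉ A) :
    piece G A p = 1 := by
  simp [piece, h]

/-- the bad set -/
def bad {X : Type*} (G : X → Circle) : Set X := {p | (G p : ℂ).re ≤ 0}

theorem isClosed_bad {X : Type*} [TopologicalSpace X] {G : X → Circle} (hG : Continuous G) :
    IsClosed (bad G) := isClosed_le (continuous_re.comp hG) continuous_const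

theorem piece_of_notMem_bad {X : Type*} {G : X → Circle} {A : Set X} {p : X} (h : p ∉ bad G) :
    piece G A p = 1 := by
  by_cases hA : p ∈ A
  · rw [piece_of_mem hA]
    apply cut_of_re_nonneg
    exact (not_le.1 h).le
  · exact piece_of_notMem hA

theorem continuous_piece {X : Type*} [TopologicalSpace X] {G : X → Circle} (hG : Continuous G)
    {A B : Set X} (hA : IsClosed A) (hB : IsClosed B) (hAB : Disjoint A B) (hu : A ∪ B = bad G) :
    Continuous (piece G A) := by
  rw [continuous_iff_continuousAt]
  intro p
  by_cases hp : p ∈ A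
  · have hpB : Bᶜ ∈ 𝓝 p := hB.isOpen_compl.mem_nhds (disjoint_left.1 hAB hp)
    have : (fun p => cut (G p)) =ᶠ[𝓝 p] piece G A := by
      filter_upwards [hpB] with q hq
      by_cases hqA : q ∈ A
      · rw [piece_of_mem hqA]
      · rw [piece_of_notMem hqA]
        apply cut_of_re_nonneg
        have : q ∉ bad G := by
          rw [← hu]
          rintro (h | h)
          · exact hqA h
          · exact hq h
        exact (not_le.1 this).le
    exact ((continuous_cut.comp hG).continuousAt).congr this
  · have hpA : Aᶜ ∈ 𝓝 p := hA.isOpen_compl.mem_nhds hp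
    have : (fun _ => (1 : Circle)) =ᶠ[𝓝 p] piece G A := by
      filter_upwards [hpA] with q hq
      rw [piece_of_notMem hq]
    exact continuousAt_const.congr this

theorem piece_union {X : Type*} {G : X → Circle} {A B : Set X} (hAB : Disjoint A B) (p : X) :
    piece G (A ∪ B) p = piece G A p * piece G B p := by
  by_cases hA : p ∈ A
  · have hB : p ∉ B := disjoint_left.1 hAB hA
    rw [piece_of_mem (mem_union_left _ hA), piece_of_mem hA, piece_of_notMem hB, mul_one]
  · by_cases hB : p ∈ B
    · rw [piece_of_mem (mem_union_right _ hB), piece_of_mem hB, piece_of_notMem hA, one_mul]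
    · rw [piece_of_notMem (by rintro (h | h); exacts [hA h, hB h]), piece_of_notMem hA,
        piece_of_notMem hB, one_mul]

theorem piece_bad {X : Type*} {G : X → Circle} (p : X) :
    piece G (bad G) p = cut (G p) := by
  by_cases h : p ∈ bad G
  · exact piece_of_mem h
  · rw [piece_of_notMem h]
    symm
    apply cut_of_re_nonneg
    exact (not_le.1 h).le

theorem piece_bad_mul {X : Type*} {G : X → Circle} (p : X) :
    piece G (bad G) p * Circle.exp (al (G p)) = G p := by
  rw [piece_bad, cut_mul]

end Pool.Agent.Helper879.V.CT
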