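import Pool.Agent.Helper879.V.CTSpan

set_option autoImplicit false

namespace Pool.Agent.Helper879.V.CT

open Set Topology

section

variable {M : Type*} [TopologicalSpace M] [CompactSpace M] [T2Space M]

/-- hereditary unicoherence -/
theorem unicoherent (hM : SpanZero M) {P Q : Set M} (hP : Ctm P) (hQ : Ctm Q) :
    IsPreconnected (P ∩ Q) := by
  classical
  rw [isPreconnected_closed_iff]
  intro t t' ht ht' hcov hn hn'
  by_contra hcon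
  rw [not_nonempty_iff_eq_empty] at hcon
  have hPc := hP.1.isClosed
  have hQc := hQ.1.isClosed
  obtain ⟨a, ⟨haP, haQ⟩, hat⟩ := hn
  obtain ⟨b, ⟨hbP, hbQ⟩, hbt⟩ := hn'
  have hA : IsClosed (P ∩ Q ∩ t) := (hPc.inter hQc).inter ht
  have hB : IsClosed (P ∩ Q ∩ t') := (hPc.inter hQc).inter ht'
  have hAB : Disjoint (P ∩ Q ∩ t) (P ∩ Q ∩ t') := by
    rw [disjoint_left]
    rintro x ⟨hx, hxt⟩ ⟨-, hxt'⟩
    have : x ∈ P ∩ Q ∩ (t ∩ t') := ⟨hx, hxt, hxt'⟩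
    rw [hcon] at this
    exact this
  obtain ⟨u, hu0, hu1, hu⟩ := exists_continuous_zero_one_of_isClosed hA hB hAB
  set g : M → Circle := fun x => if x ∈ P then Circle.exp (Real.pi * u x)
    else Circle.exp (-(Real.pi * u x)) with hg
  have huc : Continuous u := u.continuous
  have gP : ∀ x ∈ P, g x = Circle.exp (Real.pi * u x) := by
    intro x hx; simp [hg, hx]
  have gQ : ∀ x ∈ Q, g x = Circle.exp (-(Real.pi * u x)) := by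
    intro x hx
    by_cases hxP : x ∈ P
    · rw [gP x hxP]
      have : x ∈ t ∪ t' := hcov ⟨hxP, hx⟩
      rcases this with h | h
      · have : u x = 0 := hu0 ⟨⟨hxP, hx⟩, h⟩
        rw [this]; simp
      · have : u x = 1 := hu1 ⟨⟨hxP, hx⟩, h⟩
        rw [this, mul_one]
        ext
        rw [Circle.coe_exp, Circle.coe_exp]
        push_cast
        rw [neg_mul, Complex.exp_neg, Complex.exp_pi_mul_I]
        norm_num
    · simp [hg, hxP]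
  have hgc : ContinuousOn g (P ∪ Q) := by
    apply ContinuousOn.union_of_isClosed _ _ hPc hQc
    · have : ContinuousOn (fun x => Circle.exp (Real.pi * u x)) P :=
        (Circle.exp.continuous.comp (continuous_const.mul huc)).continuousOn
      exact this.congr gP
    · have : ContinuousOn (fun x => Circle.exp (-(Real.pi * u x))) Q :=
        (Circle.exp.continuous.comp (continuous_const.mul huc).neg).continuousOn
      exact this.congr gQ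
  obtain ⟨l, hl, hl'⟩ := log_on hM (hPc.union hQc)
    (IsConnected.union ⟨a, haP, haQ⟩ hP.2 hQ.2) hgc
  have e1 := log_unique hP.2.isPreconnected (hl.mono subset_union_left)
    (g := fun x => Real.pi * u x) (continuous_const.mul huc).continuousOn
    (fun x hx => by rw [hl' x (Or.inl hx), gP x hx]) haP hbP
  have e2 := log_unique hQ.2.isPreconnected (hl.mono subset_union_right)
    (g := fun x => -(Real.pi * u x)) (continuous_const.mul huc).neg.continuousOn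
    (fun x hx => by rw [hl' x (Or.inr hx), gQ x hx]) haQ hbQ
  have ua : u a = 0 := hu0 ⟨⟨haP, haQ⟩, hat⟩
  have ub : u b = 1 := hu1 ⟨⟨hbP, hbQ⟩, hbt⟩
  simp only [ua, ub] at e1 e2
  have := Real.pi_pos
  linarith

theorem ctm_inter (hM : SpanZero M) {P Q : Set M} (hP : Ctm P) (hQ : Ctm Q)
    (h : (P ∩ Q).Nonempty) : Ctm (P ∩ Q) :=
  ⟨hP.1.inter hQ.1, h, unicoherent hM hP hQ⟩

omit [CompactSpace M] [T2Space M] in
theorem ctm_vert {a : M} {K : Set M} (hK : Ctm K) : Ctm (({a} : Set M) ×ˢ K) := by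
  have : ({a} : Set M) ×ˢ K = (fun y => (a, y)) '' K := by
    ext ⟨x, y⟩
    simp only [mem_prod, mem_singleton_iff, mem_image, Prod.mk.injEq]
    constructor
    · rintro ⟨rfl, h⟩; exact ⟨y, h, rfl, rfl⟩
    · rintro ⟨z, h, rfl, rfl⟩; exact ⟨rfl, h⟩
  rw [this]
  exact hK.image (continuous_const.prodMk continuous_id).continuousOn

omit [CompactSpace M] [T2Space M] in
theorem ctm_horz {a : M} {K : Set M} (hK : Ctm K) : Ctm (K ×ˢ ({a} : Set M)) := by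
  have : K ×ˢ ({a} : Set M) = (fun y => (y, a)) '' K := by
    ext ⟨x, y⟩
    simp only [mem_prod, mem_singleton_iff, mem_image, Prod.mk.injEq]
    constructor
    · rintro ⟨h, rfl⟩; exact ⟨x, h, rfl, rfl⟩
    · rintro ⟨z, h, rfl, rfl⟩; exact ⟨h, rfl⟩
  rw [this]
  exact hK.image (continuous_id.prodMk continuous_const).continuousOn

omit [CompactSpace M] [T2Space M] in
/-- atriodicity -/
theorem atriodic (hM : SpanZero M) {A B C : Set M} (hA : Ctm A) (hB : Ctm B) (hC : Ctm C)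
    (h : (A ∩ B ∩ C).Nonempty) : A ⊆ B ∪ C ∨ B ⊆ A ∪ C ∨ C ⊆ A ∪ B := by
  by_contra hcon
  push Not at hcon
  obtain ⟨h1, h2, h3⟩ := hcon
  rw [not_subset] at h1 h2 h3
  obtain ⟨a, haA, ha⟩ := h1
  obtain ⟨b, hbB, hb⟩ := h2
  obtain ⟨c, hcC, hc⟩ := h3
  obtain ⟨o, ⟨hoA, hoB⟩, hoC⟩ := h
  have hBC : Ctm (B ∪ C) := ctm_union hB hC ⟨o, hoB, hoC⟩
  have hAC : Ctm (A ∪ C) := ctm_union hA hC ⟨o, hoA, hoC⟩
  have hAB : Ctm (A ∪ B) := ctm_union hA hB ⟨o, hoA, hoB⟩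
  set Z1 : Set (M × M) := ({a} : Set M) ×ˢ (B ∪ C) with hZ1
  set Z2 : Set (M × M) := (A ∪ C) ×ˢ ({b} : Set M) with hZ2
  set Z3 : Set (M × M) := ({c} : Set M) ×ˢ (A ∪ B) with hZ3
  set Z4 : Set (M × M) := (B ∪ C) ×ˢ ({a} : Set M) with hZ4
  set Z5 : Set (M × M) := ({b} : Set M) ×ˢ (A ∪ C) with hZ5
  set Z6 : Set (M × M) := (A ∪ B) ×ˢ ({c} : Set M) with hZ6
  have c1 : Ctm Z1 := ctm_vert hBC
  have c2 : Ctm Z2 := ctm_horz hAC
  have c3 : Ctm Z3 := ctm_vert hAB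
  have c4 : Ctm Z4 := ctm_horz hBC
  have c5 : Ctm Z5 := ctm_vert hAC
  have c6 : Ctm Z6 := ctm_horz hAB
  have d2 : Ctm (Z1 ∪ Z2) := ctm_union c1 c2 ⟨(a, b), ⟨rfl, Or.inl hbB⟩, ⟨Or.inl haA, rfl⟩⟩
  have d3 : Ctm (Z1 ∪ Z2 ∪ Z3) := ctm_union d2 c3
    ⟨(c, b), Or.inr ⟨Or.inr hcC, rfl⟩, ⟨rfl, Or.inr hbB⟩⟩
  have d4 : Ctm (Z1 ∪ Z2 ∪ Z3 ∪ Z4) := ctm_union d3 c4
    ⟨(c, a), Or.inr ⟨rfl, Or.inl haA⟩, ⟨Or.inr hcC, rfl⟩⟩
  have d5 : Ctm (Z1 ∪ Z2 ∪ Z3 ∪ Z4 ∪ Z5) := ctm_union d4 c5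
    ⟨(b, a), Or.inr ⟨Or.inl hbB, rfl⟩, ⟨rfl, Or.inl haA⟩⟩
  have d6 : Ctm (Z1 ∪ Z2 ∪ Z3 ∪ Z4 ∪ Z5 ∪ Z6) := ctm_union d5 c6
    ⟨(b, c), Or.inr ⟨rfl, Or.inr hcC⟩, ⟨Or.inr hbB, rfl⟩⟩
  have f1 : Prod.fst '' (Z1 ∪ Z2 ∪ Z3 ∪ Z4 ∪ Z5 ∪ Z6) = A ∪ B ∪ C := by
    apply Subset.antisymm
    · rintro _ ⟨⟨x, y⟩, hp, rfl⟩
      rcases hp with ((((⟨h, -⟩ | ⟨h, -⟩) | ⟨h, -⟩) | ⟨h, -⟩) | ⟨h, -⟩) | ⟨h, -⟩ <;>
        simp only [mem_singleton_iff, mem_union] at h ⊢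
      · subst h; tauto
      · tauto
      · subst h; tauto
      · tauto
      · subst h; tauto
      · tauto
    · rintro x ((hx | hx) | hx)
      · exact ⟨(x, c), Or.inr ⟨Or.inl hx, rfl⟩, rfl⟩
      · exact ⟨(x, c), Or.inr ⟨Or.inr hx, rfl⟩, rfl⟩
      · exact ⟨(x, a), Or.inl (Or.inl (Or.inr ⟨Or.inr hx, rfl⟩)), rfl⟩
  have f2 : Prod.snd '' (Z1 ∪ Z2 ∪ Z3 ∪ Z4 ∪ Z5 ∪ Z6) = A ∪ B ∪ C := by
    apply Subset.antisymm
    · rintro _ ⟨⟨x, y⟩, hp, rfl⟩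
      rcases hp with ((((⟨-, h⟩ | ⟨-, h⟩) | ⟨-, h⟩) | ⟨-, h⟩) | ⟨-, h⟩) | ⟨-, h⟩ <;>
        simp only [mem_singleton_iff, mem_union] at h ⊢
      · tauto
      · subst h; tauto
      · tauto
      · subst h; tauto
      · tauto
      · subst h; tauto
    · rintro x ((hx | hx) | hx)
      · exact ⟨(b, x), Or.inl (Or.inr ⟨rfl, Or.inl hx⟩), rfl⟩
      · exact ⟨(c, x), Or.inl (Or.inl (Or.inl (Or.inr ⟨rfl, Or.inr hx⟩))), rfl⟩
      · exact ⟨(b, x), Or.inl (Or.inr ⟨rfl, Or.inr hx⟩), rfl⟩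
  obtain ⟨⟨x, y⟩, hp, hxy⟩ := hM _ d6.1 d6.2 (by rw [f1, f2])
  simp only at hxy
  subst hxy
  simp only [mem_union, not_or] at ha hb hc
  rcases hp with ((((⟨h, h'⟩ | ⟨h, h'⟩) | ⟨h, h'⟩) | ⟨h, h'⟩) | ⟨h, h'⟩) | ⟨h, h'⟩ <;>
    simp only [mem_singleton_iff, mem_union] at h h'
  · subst h; tauto
  · subst h'; tauto
  · subst h; tauto
  · subst h'; tauto
  · subst h; tauto
  · subst h'; tauto

theorem nested (hM : SpanZero M) {P Q Q' : Set M} (hP : Ctm P) (hQ : Ctm Q) (hQ' : Ctm Q')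
    (h1 : ¬ Q ⊆ P) (h2 : ¬ Q' ⊆ P) (h3 : ¬ P ⊆ Q ∪ Q') (h : (Q ∩ P ∩ (Q' ∩ P)).Nonempty) :
    Q ∩ P ⊆ Q' ∩ P ∨ Q' ∩ P ⊆ Q ∩ P := by
  obtain ⟨x, ⟨hxQ, hxP⟩, hxQ', -⟩ := h
  have he : Ctm (Q ∩ P) := ctm_inter hM hQ hP ⟨x, hxQ, hxP⟩
  have he' : Ctm (Q' ∩ P) := ctm_inter hM hQ' hP ⟨x, hxQ', hxP⟩
  have hqq : Ctm (Q ∩ Q') := ctm_inter hM hQ hQ' ⟨x, hxQ, hxQ'⟩
  rcases atriodic hM he he' hqq ⟨x, ⟨⟨hxQ, hxP⟩, hxQ', hxP⟩, hxQ, hxQ'⟩ with h | h | h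
  · left
    intro y hy
    rcases h hy with h | h
    · exact h
    · exact ⟨h.2, hy.2⟩
  · right
    intro y hy
    rcases h hy with h | h
    · exact h
    · exact ⟨h.1, hy.2⟩
  · exfalso
    have hsub : Q ∩ Q' ⊆ P := by
      intro y hy
      rcases h hy with h | h
      · exact h.2
      · exact h.2
    rcases atriodic hM hP hQ hQ' ⟨x, ⟨hxP, hxQ⟩, hxQ'⟩ with h | h | h
    · exact h3 h
    · apply h1
      intro y hy
      rcases h hy with h | h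
      · exact h
      · exact hsub ⟨hy, h⟩
    · apply h2
      intro y hy
      rcases h hy with h | h
      · exact h
      · exact hsub ⟨h, hy⟩

theorem disjoint_of_disjoint_inter (hM : SpanZero M) {P Q Q' : Set M} (hP : Ctm P) (hQ : Ctm Q)
    (hQ' : Ctm Q') (h1 : (Q ∩ P).Nonempty) (h2 : (Q' ∩ P).Nonempty)
    (h : Q ∩ P ∩ (Q' ∩ P) = ∅) : Q ∩ Q' = ∅ := by
  by_contra hcon
  rw [← ne_eq, ← nonempty_iff_ne_empty] at hcon
  have h3 : Ctm (P ∪ Q) := ctm_union hP hQ (by rw [inter_comm]; exact h1)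
  have h4 := unicoherent hM h3 hQ'
  rw [isPreconnected_closed_iff] at h4
  obtain ⟨y, hy, hy1, hy2⟩ := h4 P Q hP.1.isClosed hQ.1.isClosed inter_subset_left
    (by obtain ⟨z, hz, hz'⟩ := h2; exact ⟨z, ⟨Or.inl hz', hz⟩, hz'⟩)
    (by obtain ⟨z, hz, hz'⟩ := hcon; exact ⟨z, ⟨Or.inr hz, hz'⟩, hz⟩)
  have : y ∈ Q ∩ P ∩ (Q' ∩ P) := ⟨⟨hy2, hy1⟩, hy.2, hy1⟩
  rw [h] at this
  exact this

theorem no_three (hM : SpanZero M) {P Q1 Q2 Q3 : Set M} (hP : Ctm P) (hQ1 : Ctm Q1)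
    (hQ2 : Ctm Q2) (hQ3 : Ctm Q3) (h1 : ¬ Q1 ⊆ P) (h2 : ¬ Q2 ⊆ P) (h3 : ¬ Q3 ⊆ P)
    (e1 : (Q1 ∩ P).Nonempty) (e2 : (Q2 ∩ P).Nonempty) (e3 : (Q3 ∩ P).Nonempty)
    (e12 : Q1 ∩ P ∩ (Q2 ∩ P) = ∅) (e13 : Q1 ∩ P ∩ (Q3 ∩ P) = ∅)
    (e23 : Q2 ∩ P ∩ (Q3 ∩ P) = ∅) : False := by
  have d12 := disjoint_of_disjoint_inter hM hP hQ1 hQ2 e1 e2 e12
  have d13 := disjoint_of_disjoint_inter hM hP hQ1 hQ3 e1 e3 e13
  have d23 := disjoint_of_disjoint_inter hM hP hQ2 hQ3 e2 e3 e23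
  have u1 : Ctm (P ∪ Q1) := ctm_union hP hQ1 (by rw [inter_comm]; exact e1)
  have u2 : Ctm (P ∪ Q2) := ctm_union hP hQ2 (by rw [inter_comm]; exact e2)
  have u3 : Ctm (P ∪ Q3) := ctm_union hP hQ3 (by rw [inter_comm]; exact e3)
  obtain ⟨x, hx⟩ := hP.2.nonempty
  rw [eq_empty_iff_forall_notMem] at d12 d13 d23
  rcases atriodic hM u1 u2 u3 ⟨x, ⟨Or.inl hx, Or.inl hx⟩, Or.inl hx⟩ with h | h | h
  · apply h1
    intro y hy
    rcases h (Or.inr hy) with (h | h) | (h | h)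
    · exact h
    · exact absurd ⟨hy, h⟩ (d12 y)
    · exact h
    · exact absurd ⟨hy, h⟩ (d13 y)
  · apply h2
    intro y hy
    rcases h (Or.inr hy) with (h | h) | (h | h)
    · exact h
    · exact absurd ⟨h, hy⟩ (d12 y)
    · exact h
    · exact absurd ⟨hy, h⟩ (d23 y)
  · apply h3
    intro y hy
    rcases h (Or.inr hy) with (h | h) | (h | h)
    · exact h
    · exact absurd ⟨h, hy⟩ (d13 y)
    · exact h
    · exact absurd ⟨h, hy⟩ (d23 y)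

end

end Pool.Agent.Helper879.V.CT
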